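import Pool.Agent.H63Fr.Defs

namespace Pool.Agent.H63Fr

open Finset

variable {q : ℕ} {P : Finset ℕ} {s : ℕ → ℕ → ℕ}

theorem budget (h : Sys q P s) {y : ℕ} (hy : y ∈ P) :
    ((q : ℝ) - ∑ p ∈ P, (p : ℝ)) + ∑ p ∈ P.erase y, ell q p y (s p y) ≤ 0 := by
  have h1 : (2 : ℝ) * y < q := by exact_mod_cast h.half y hy
  have h2 : (0 : ℝ) ≤ y := Nat.cast_nonneg y
  have h3 : (0 : ℝ) < q := by linarith
  have h4 : (q : ℝ) ≤ ∑ p ∈ P.erase y, F q (s p y) :=
    (le_add_of_nonneg_right (by positivity)).trans (h.J y hy)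
  have h5 : (q : ℝ) - y ≤ (∑ p ∈ P.erase y, F q (s p y)) * ((q : ℝ) - y) / q := by
    rw [le_div_iff₀ h3, mul_comm]
    exact mul_le_mul_of_nonneg_right h4 (by linarith)
  unfold ell
  rw [sum_sub_distrib, ← sum_div, ← sum_mul, ← add_sum_erase P (fun p : ℕ => (p : ℝ)) hy]
  linarith

/-- The loss in terms of a lower bound `u ≤ t p`. -/
theorem budget_ell {p y t : ℕ} {u : ℝ} (hp : 0 < p) (hy : 2 * y < q) (ht : 2 * t ≤ q) (hu : 0 < u)
    (h : u ≤ (t : ℝ) * p) :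
    (p : ℝ) - p * (q - y) / u - 23 / 10 / p * (u * (q - y) / q ^ 2) ≤ ell q p y t := by
  have h0 : (0 : ℝ) < p := by exact_mod_cast hp
  have h1 : (2 : ℝ) * y < q := by exact_mod_cast hy
  have h2 : (0 : ℝ) ≤ y := Nat.cast_nonneg y
  have h3 : (0 : ℝ) < q := by linarith
  have h4 := mul_le_mul_of_nonneg_right (F_le (div_pos hu h0) ((div_le_iff₀ h0).2 h) ht)
    (div_nonneg (show (0 : ℝ) ≤ q - y by linarith) h3.le)
  have h5 : ((q : ℝ) / (u / p) + 23 / 10 * (u / p) / q) * ((q - y) / q) =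
      p * (q - y) / u + 23 / 10 / p * (u * (q - y) / q ^ 2) := by
    field_simp
  unfold ell
  rw [mul_div_assoc (F q t)]
  linarith

theorem ell_a (h : Sys q P s) {p y : ℕ} (hp : p ∈ P) (hy : y ∈ P) (hd : ¬ p ∣ y) :
    -(23 / 10 / (p : ℝ)) ≤ ell q p y (s p y) := by
  have h0 : (0 : ℝ) < p := by exact_mod_cast h.pos p hp
  have h1 : (2 : ℝ) * y < q := by exact_mod_cast h.half y hy
  have h2 : (0 : ℝ) ≤ y := Nat.cast_nonneg y
  have h3 : (0 : ℝ) < q := by linarith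
  have h4 : (q : ℝ) ≤ s p y * p + y := by exact_mod_cast h.s_mul_ge hp hy hd
  have h5 : (0 : ℝ) < q - y := by linarith
  have h6 := budget_ell (u := (q : ℝ) - y) (h.pos p hp) (h.half y hy) (h.s_half p hp y hy) h5
    (by linarith)
  rw [mul_div_assoc, div_self h5.ne'] at h6
  have h7 : ((q : ℝ) - y) * (q - y) / q ^ 2 ≤ 1 := (div_le_one (by positivity)).2 (by nlinarith)
  have h8 := mul_le_mul_of_nonneg_left h7 (show (0 : ℝ) ≤ 23 / 10 / p by positivity)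
  linarith

theorem ell_b (h : Sys q P s) {p y : ℕ} (hp : p ∈ P) (hy : y ∈ P) (hd : ¬ p ∣ y)
    (h1 : ¬ p ∣ q - y) (h2 : ¬ p ∣ q + y) :
    4 ≤ p ∧ (p : ℝ) / 2 - 23 / 5 / p ≤ ell q p y (s p y) := by
  have a1 := h.half y hy
  have a2 := h.s_half p hp y hy
  have a3 : 2 * q ≤ s p y * p + y := by
    obtain ⟨c, hc, h3⟩ := h.s_cases hp hy hd
    rcases hc.eq_or_lt with rfl | hc
    · rw [one_mul] at h3
      rcases h3 with h3 | h3
      · exact absurd (h3 ▸ Dvd.intro_left _ rfl) h2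
      · exact absurd ((Nat.eq_sub_of_add_eq h3) ▸ Dvd.intro_left _ rfl) h1
    · have h4 := Nat.mul_le_mul_right q (show 2 ≤ c from hc)
      omega
  refine ⟨?_, ?_⟩
  · by_contra h3
    have h4 := Nat.mul_le_mul_left (s p y) (show p ≤ 3 by omega)
    omega
  have h0 : (0 : ℝ) < p := by exact_mod_cast h.pos p hp
  have b1 : (2 : ℝ) * y < q := by exact_mod_cast a1
  have b2 : (0 : ℝ) ≤ y := Nat.cast_nonneg y
  have b3 : (0 : ℝ) < q := by linarith
  have b4 : (2 : ℝ) * q ≤ s p y * p + y := by exact_mod_cast a3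
  have b5 : (0 : ℝ) < 2 * q - y := by linarith
  have h6 := budget_ell (u := 2 * (q : ℝ) - y) (h.pos p hp) a1 a2 b5 (by linarith)
  have h7 : (2 * (q : ℝ) - y) * (q - y) / q ^ 2 ≤ 2 := (div_le_iff₀ (by positivity)).2 (by nlinarith)
  have h8 := mul_le_mul_of_nonneg_left h7 (show (0 : ℝ) ≤ 23 / 10 / p by positivity)
  have h9 : (p : ℝ) * (q - y) / (2 * q - y) ≤ p / 2 := (div_le_iff₀ b5).2 (by nlinarith)
  have h10 : (23 : ℝ) / 5 / p = 23 / 10 / p * 2 := by ring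
  linarith

theorem ell_c (h : Sys q P s) {p y : ℕ} (hp : p ∈ P) (hy : y ∈ P) (h3 : 3 ≤ p)
    (h2 : p ∣ q + y) :
    2 * (p : ℝ) * y / (q + y) - 23 / 10 / p ≤ ell q p y (s p y) := by
  obtain ⟨t, ht⟩ := h2
  have a1 := h.half y hy
  have a2 : 2 * t ≤ q := by
    have h4 := Nat.mul_le_mul_right t h3
    omega
  have b0 : (q : ℤ) + y = p * t := by exact_mod_cast ht
  rw [h.s_unique hp hy a2 (.inl ⟨1, by linarith⟩)]
  have h0 : (0 : ℝ) < p := by exact_mod_cast h.pos p hp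
  have b1 : (2 : ℝ) * y < q := by exact_mod_cast a1
  have b2 : (0 : ℝ) ≤ y := Nat.cast_nonneg y
  have b3 : (0 : ℝ) < q := by linarith
  have b4 : (q : ℝ) + y = p * t := by exact_mod_cast ht
  have b5 : (0 : ℝ) < q + y := by linarith
  have h6 := budget_ell (u := (q : ℝ) + y) (h.pos p hp) a1 a2 b5 (by linarith)
  have h7 : ((q : ℝ) + y) * (q - y) / q ^ 2 ≤ 1 := (div_le_one (by positivity)).2 (by nlinarith)
  have h8 := mul_le_mul_of_nonneg_left h7 (show (0 : ℝ) ≤ 23 / 10 / p by positivity)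
  have h9 : 2 * (p : ℝ) * y / (q + y) = p - p * (q - y) / (q + y) := by
    field_simp
    ring
  linarith

end Pool.Agent.H63Fr
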