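import Pool.Agent.H63Fr.Defs

namespace Pool.Agent.H63Fr

/-- evaluate a number once before passing it on -/
def frc {α : Type} (n : ℕ) (f : ℕ → α) : α :=
  match n with
  | 0 => f 0
  | k + 1 => f (k + 1)

theorem frc_eq {α : Type} (n : ℕ) (f : ℕ → α) : frc n f = f n := by
  cases n <;> rfl

def lsum {α : Type} (w : α → ℕ) : List α → ℕ
  | [] => 0
  | c :: L => w c + lsum w L

def dcl (q y u : ℕ) : ℕ := frc (y * u % q) fun r => cond (Nat.ble (2 * r) q) r (q - r)

def Fi (q y u : ℕ) : ℕ := frc (dcl q y u) fun t => 1000 * q / t + 2300 * t / q + 2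

def tr (q y lam rem : ℕ) (S R : List (ℕ × ℕ)) : Bool :=
  Nat.blt (lam * rem + lsum (fun c => cond (Nat.beq c.1 y) 0 (Fi q y c.2)) S
    + lsum (fun c => cond (Nat.ble c.1 rem) (Fi q y c.2 - lam * c.1) 0) R) (1000 * q + 1600 / q)

def prune (q a y rem : ℕ) (S R : List (ℕ × ℕ)) : Bool :=
  (frc (1000 * a * q / (y * (q - a)) + 1) fun lam => tr q y lam rem S R) ||
    (frc (1000 * q / (q - a) + 1) fun lam => tr q a lam rem S R)

def chainL (a : ℕ) : ℕ → List ℕ
  | 0 => [a]
  | m + 1 => 2 ^ (m + 1) * a :: chainL a m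

def leaf (q a : ℕ) (S : List (ℕ × ℕ)) : Bool :=
  S.any (fun c => tr q c.1 0 0 S []) || decide (S.map Prod.fst = chainL a (S.length - 1)) ||
    (decide (q + 1 = 4 * 2 ^ (S.length - 2)) &&
      decide (S.map Prod.fst = (2 * 2 ^ (S.length - 2) - 1) :: chainL 1 (S.length - 2)))

def go (q a : ℕ) : List (ℕ × ℕ) → List (ℕ × ℕ) → ℕ → Bool
  | [], S, _ => leaf q a S
  | c :: R, S, rem =>
    cond (Nat.ble c.1 rem)
      (frc (rem - c.1) fun r => prune q a c.1 r (c :: S) R || go q a R (c :: S) r) true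
      && go q a R S rem

/-- search for an inverse up to sign; the answer is verified afterwards -/
def invS (q p : ℕ) : ℕ → ℕ → ℕ
  | 0, _ => 0
  | n + 1, x => cond (Nat.beq ((x + 1) % p) 0) ((x + 1) / p)
      (cond (Nat.beq ((x - 1) % p) 0) ((x - 1) / p) (frc (x + q) fun x' => invS q p n x'))

def okInv (q : ℕ) (c : ℕ × ℕ) : Bool :=
  frc (c.1 * c.2 % q) fun r => Nat.beq r 1 || Nat.beq (r + 1) q

def mkP (q : ℕ) : List ℕ → (List (ℕ × ℕ) → Bool) → Bool
  | [], k => k []
  | p :: L, k => mkP q L fun R => frc p fun p' =>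
      cond (Nat.beq (Nat.gcd p' q) 1) (frc (invS q p' p' q) fun u => k ((p', u) :: R)) (k R)

def goodB (q a p : ℕ) : Bool := Nat.beq ((q - a) % p) 0 || Nat.beq ((q + a) % p) 0

/-- the good numbers in `(a, a + n]`, passed on as an evaluated list -/
def scan (q a : ℕ) : ℕ → List ℕ → (List ℕ → Bool) → Bool
  | 0, acc, k => k acc
  | n + 1, acc, k => frc (a + n + 1) fun p =>
      cond (goodB q a p) (scan q a n (p :: acc) k) (scan q a n acc k)

def cand (q a : ℕ) (G : List ℕ) (b : ℕ) : List ℕ :=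
  List.range' (a + 1) (min b ((q - 1) / 2) - a) ++ G.filter (fun p => Nat.blt b p)

def check (q a : ℕ) : Bool :=
  cond (Nat.beq (Nat.gcd a q) 1)
    (scan q a ((q - 1) / 2 - a) [] fun G =>
      frc ((lsum (fun p => 2300 / p + 1) G + 1150) / 500) fun b =>
        mkP q (cand q a G b) fun R => frc (invS q a a q) fun u =>
          okInv q (a, u) && R.all (okInv q) &&
            (prune q a a (q - a) [(a, u)] R || go q a R [(a, u)] (q - a))) true

/-- `check q a` for all `1 ≤ a ≤ n` -/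
def checkA (q : ℕ) : ℕ → Bool
  | 0 => true
  | n + 1 => check q (n + 1) && checkA q n

/-- all smallest letters, `lo ≤ q < lo + n` -/
def checkAll (lo : ℕ) : ℕ → Bool
  | 0 => true
  | n + 1 => (frc (lo + n) fun q => checkA q ((q - 1) / 2)) && checkAll lo n

/-- smallest letter 1, `lo ≤ q < lo + n` -/
def checkOne (lo : ℕ) : ℕ → Bool
  | 0 => true
  | n + 1 => (frc (lo + n) fun q => check q 1) && checkOne lo n

end Pool.Agent.H63Fr
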