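import Pool.Agent.H63Fr.ChkDef

namespace Pool.Agent.H63Fr

theorem dataAll_3 : checkAll 3 40 = true := by decide +kernel

theorem dataAll_43 : checkAll 43 37 = true := by decide +kernel

theorem dataAll_80 : checkAll 80 10 = true := by decide +kernel

theorem dataAll_90 : checkAll 90 10 = true := by decide +kernel

theorem dataAll_100 : checkAll 100 10 = true := by decide +kernel

end Pool.Agent.H63Fr
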