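import Pool.Agent.H63Fr.ChkDef

namespace Pool.Agent.H63Fr

theorem dataAll_110 : checkAll 110 10 = true := by decide +kernel

theorem dataAll_120 : checkAll 120 10 = true := by decide +kernel

theorem dataAll_130 : checkAll 130 10 = true := by decide +kernel

end Pool.Agent.H63Fr
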