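import Pool.Agent.H63Fr.ChkDef

namespace Pool.Agent.H63Fr

theorem dataOne_140 : checkOne 140 52 = true := by decide +kernel

theorem dataOne_192 : checkOne 192 52 = true := by decide +kernel

theorem dataOne_244 : checkOne 244 52 = true := by decide +kernel

theorem dataOne_296 : checkOne 296 52 = true := by decide +kernel

theorem dataOne_348 : checkOne 348 52 = true := by decide +kernel

end Pool.Agent.H63Fr
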