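import Pool.Agent.H63Fr.ChkDef

namespace Pool.Agent.H63Fr

theorem dataOne_400 : checkOne 400 44 = true := by decide +kernel

theorem dataOne_444 : checkOne 444 44 = true := by decide +kernel

theorem dataOne_488 : checkOne 488 44 = true := by decide +kernel

theorem dataOne_532 : checkOne 532 44 = true := by decide +kernel

theorem dataOne_576 : checkOne 576 44 = true := by decide +kernel

end Pool.Agent.H63Fr
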