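import Pool.Agent.H63Fr.ChkDef

namespace Pool.Agent.H63Fr

theorem dataOne_620 : checkOne 620 40 = true := by decide +kernel

theorem dataOne_660 : checkOne 660 40 = true := by decide +kernel

theorem dataOne_700 : checkOne 700 40 = true := by decide +kernel

theorem dataOne_740 : checkOne 740 40 = true := by decide +kernel

theorem dataOne_780 : checkOne 780 40 = true := by decide +kernel

end Pool.Agent.H63Fr
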