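import Pool.Agent.H63Fr.ChkDef

namespace Pool.Agent.H63Fr

theorem dataOne_820 : checkOne 820 34 = true := by decide +kernel

theorem dataOne_854 : checkOne 854 34 = true := by decide +kernel

theorem dataOne_888 : checkOne 888 34 = true := by decide +kernel

theorem dataOne_922 : checkOne 922 34 = true := by decide +kernel

theorem dataOne_956 : checkOne 956 34 = true := by decide +kernel

end Pool.Agent.H63Fr
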