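import Pool.Agent.H63Fr.ChkDef

namespace Pool.Agent.H63Fr

theorem dataOne_990 : checkOne 990 32 = true := by decide +kernel

theorem dataOne_1022 : checkOne 1022 32 = true := by decide +kernel

theorem dataOne_1054 : checkOne 1054 32 = true := by decide +kernel

theorem dataOne_1086 : checkOne 1086 32 = true := by decide +kernel

theorem dataOne_1118 : checkOne 1118 32 = true := by decide +kernel

end Pool.Agent.H63Fr
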