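import Pool.Agent.H63Fr.ChkDef

namespace Pool.Agent.H63Fr

theorem dataOne_1150 : checkOne 1150 30 = true := by decide +kernel

theorem dataOne_1180 : checkOne 1180 30 = true := by decide +kernel

theorem dataOne_1210 : checkOne 1210 30 = true := by decide +kernel

theorem dataOne_1240 : checkOne 1240 30 = true := by decide +kernel

theorem dataOne_1270 : checkOne 1270 26 = true := by decide +kernel

end Pool.Agent.H63Fr
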