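import Mathlib

namespace Pool.Agent.H63Fr

open Finset

/-- rational majorant of pi / sin (pi s / q) -/
noncomputable def F (q s : ℕ) : ℝ := (q : ℝ) / s + 23 / 10 * s / q

/-- the system of inequalities, with `s p y` the distance class of `y / p` modulo `q` -/
structure Sys (q : ℕ) (P : Finset ℕ) (s : ℕ → ℕ → ℕ) : Prop where
  pos : ∀ p ∈ P, 0 < p
  cop : ∀ p ∈ P, Nat.Coprime p q
  half : ∀ p ∈ P, 2 * p < q
  sum_le : ∑ p ∈ P, p ≤ q
  s_pos : ∀ p ∈ P, ∀ y ∈ P, 0 < s p y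
  s_half : ∀ p ∈ P, ∀ y ∈ P, 2 * s p y ≤ q
  s_cong : ∀ p ∈ P, ∀ y ∈ P,
    (q : ℤ) ∣ (s p y : ℤ) * p - y ∨ (q : ℤ) ∣ (s p y : ℤ) * p + y
  J : ∀ y ∈ P, (q : ℝ) + 8 / (5 * q) ≤ ∑ p ∈ P.erase y, F q (s p y)

/-- the chain a, 2a, ..., 2^m a -/
def chain (a m : ℕ) : Finset ℕ := (range (m + 1)).image (fun i => 2 ^ i * a)

/-- the exceptional configuration -/
def Goal (q : ℕ) (P : Finset ℕ) : Prop :=
  ∃ m : ℕ, q + 1 = 4 * 2 ^ m ∧ P = insert (2 * 2 ^ m - 1) (chain 1 m)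

/-- loss of letter `p` in the budget inequality at `y` -/
noncomputable def ell (q p y t : ℕ) : ℝ := (p : ℝ) - F q t * ((q : ℝ) - y) / q

/-- bad letters (for the smallest letter 1) -/
def Bad (q p : ℕ) : Prop := p ≠ 1 ∧ ¬ p ∣ q - 1 ∧ ¬ p ∣ q + 1

instance (q p : ℕ) : Decidable (Bad q p) := by unfold Bad; infer_instance

/-- large case data: `y` is the first letter after the chain 1, 2, ..., 2^m -/
structure Big (q : ℕ) (P : Finset ℕ) (s : ℕ → ℕ → ℕ) (m y : ℕ) : Prop where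
  sys : Sys q P s
  large : 1296 ≤ q
  mem : y ∈ P
  gt : 2 ^ m < y
  ne : y ≠ 2 ^ (m + 1)
  below : ∀ p, (p ∈ P ∧ p < y) ↔ ∃ i, i ≤ m ∧ p = 2 ^ i

/-- letters of the main type at `y` -/
def Main (q y p t : ℕ) : Prop := (p < y ∧ p ∣ y) ∨ (y < p ∧ y * (q - 1) ≤ t * p)

instance (q y p t : ℕ) : Decidable (Main q y p t) := by unfold Main; infer_instance

theorem mem_chain {a m p : ℕ} : p ∈ chain a m ↔ ∃ i, i ≤ m ∧ p = 2 ^ i * a := by
  unfold chain
  simp only [mem_image, mem_range]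
  constructor
  · rintro ⟨i, hi, rfl⟩; exact ⟨i, by omega, rfl⟩
  · rintro ⟨i, hi, rfl⟩; exact ⟨i, by omega, rfl⟩

variable {q : ℕ} {P : Finset ℕ} {s : ℕ → ℕ → ℕ}

theorem Big.one_mem {m y : ℕ} (h : Big q P s m y) : 1 ∈ P :=
  ((h.below 1).2 ⟨0, Nat.zero_le _, by simp⟩).1

/-- uniqueness of the distance class -/
theorem Sys.s_unique (h : Sys q P s) {p y t : ℕ} (hp : p ∈ P) (hy : y ∈ P) (ht : 2 * t ≤ q)
    (hc : (q : ℤ) ∣ (t : ℤ) * p - y ∨ (q : ℤ) ∣ (t : ℤ) * p + y) : s p y = t := by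
  have hcop : IsCoprime (q : ℤ) (p : ℤ) := Nat.isCoprime_iff_coprime.2 (h.cop p hp).symm
  have h1 := h.s_pos p hp y hy
  have h2 := h.s_half p hp y hy
  have key : (q : ℤ) ∣ (s p y : ℤ) - t ∨ (q : ℤ) ∣ (s p y : ℤ) + t := by
    rcases h.s_cong p hp y hy with a | a <;> rcases hc with b | b
    · left; apply hcop.dvd_of_dvd_mul_right
      have := dvd_sub a b
      rwa [show (s p y : ℤ) * p - y - ((t : ℤ) * p - y) = ((s p y : ℤ) - t) * p by ring] at this
    · right; apply hcop.dvd_of_dvd_mul_right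
      have := dvd_add a b
      rwa [show (s p y : ℤ) * p - y + ((t : ℤ) * p + y) = ((s p y : ℤ) + t) * p by ring] at this
    · right; apply hcop.dvd_of_dvd_mul_right
      have := dvd_add a b
      rwa [show (s p y : ℤ) * p + y + ((t : ℤ) * p - y) = ((s p y : ℤ) + t) * p by ring] at this
    · left; apply hcop.dvd_of_dvd_mul_right
      have := dvd_sub a b
      rwa [show (s p y : ℤ) * p + y - ((t : ℤ) * p + y) = ((s p y : ℤ) - t) * p by ring] at this
  rcases key with k | k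
  · have := Int.eq_zero_of_abs_lt_dvd k (by rw [abs_lt]; constructor <;> omega)
    omega
  · have := Int.le_of_dvd (by omega) k
    omega

/-- (C): if `p` does not divide `y` then `s p = c q ± y` with `c ≥ 1` -/
theorem Sys.s_cases (h : Sys q P s) {p y : ℕ} (hp : p ∈ P) (hy : y ∈ P) (hd : ¬ p ∣ y) :
    ∃ c : ℕ, 1 ≤ c ∧ (s p y * p = c * q + y ∨ s p y * p + y = c * q) := by
  have h1 := h.s_pos p hp y hy
  have h2 := h.pos p hp
  have h3 := h.pos y hy
  have h4 := h.half y hy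
  have h5 : 0 < s p y * p := Nat.mul_pos h1 h2
  rcases h.s_cong p hp y hy with ⟨c, hc⟩ | ⟨c, hc⟩
  · have hc0 : 0 < c := by
      by_contra hn
      rcases (not_lt.1 hn).lt_or_eq with hlt | heq
      · have : (q : ℤ) * c ≤ q * (-1) := mul_le_mul_of_nonneg_left (by omega) (by omega)
        have h6 : (0 : ℤ) < (s p y : ℤ) * p := by exact_mod_cast h5
        omega
      · apply hd
        rw [heq, mul_zero] at hc
        have : y = s p y * p := by
          have h6 : (y : ℤ) = (s p y : ℤ) * p := by omega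
          exact_mod_cast h6
        exact ⟨s p y, by rw [mul_comm]; exact this⟩
    obtain ⟨d, rfl⟩ := Int.eq_ofNat_of_zero_le hc0.le
    refine ⟨d, by exact_mod_cast hc0, Or.inl ?_⟩
    have : (s p y : ℤ) * p = d * q + y := by linarith
    exact_mod_cast this
  · have hc0 : 0 < c := by
      by_contra hn
      have : (q : ℤ) * c ≤ 0 := mul_nonpos_of_nonneg_of_nonpos (by omega) (not_lt.1 hn)
      have h6 : (0 : ℤ) < (s p y : ℤ) * p := by exact_mod_cast h5
      omega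
    obtain ⟨d, rfl⟩ := Int.eq_ofNat_of_zero_le hc0.le
    refine ⟨d, by exact_mod_cast hc0, Or.inr ?_⟩
    have : (s p y : ℤ) * p + y = d * q := by linarith
    exact_mod_cast this

/-- a letter not dividing `y` has `s p ≥ q - y` -/
theorem Sys.s_mul_ge (h : Sys q P s) {p y : ℕ} (hp : p ∈ P) (hy : y ∈ P) (hd : ¬ p ∣ y) :
    q ≤ s p y * p + y := by
  obtain ⟨c, hc, h1 | h1⟩ := h.s_cases hp hy hd <;> nlinarith

/-- `F` is decreasing on `(0, q/2]` -/
theorem F_le {t : ℕ} {x : ℝ} (hx : 0 < x) (hxt : x ≤ t) (ht : 2 * t ≤ q) :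
    F q t ≤ (q : ℝ) / x + 23 / 10 * x / q := by
  have ht' : (2 : ℝ) * t ≤ q := by exact_mod_cast ht
  have ht0 : (0 : ℝ) < t := lt_of_lt_of_le hx hxt
  have hq : (0 : ℝ) < q := by linarith
  unfold F
  have e : (q : ℝ) / x + 23 / 10 * x / q - ((q : ℝ) / t + 23 / 10 * t / q)
      = ((t : ℝ) - x) * ((q : ℝ) ^ 2 - 23 / 10 * (x * t)) / (x * t * q) := by
    field_simp; ring
  have hn : 0 ≤ ((t : ℝ) - x) * ((q : ℝ) ^ 2 - 23 / 10 * (x * t)) / (x * t * q) := by
    apply div_nonneg _ (by positivity)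
    apply mul_nonneg (by linarith)
    nlinarith [mul_le_mul hxt (le_refl (t : ℝ)) ht0.le ht0.le]
  linarith

/-- `F` exceeds its first term by at most 23/20 -/
theorem F_le_add {t : ℕ} (ht0 : 0 < t) (ht : 2 * t ≤ q) : F q t ≤ (q : ℝ) / t + 23 / 20 := by
  have ht' : (2 : ℝ) * t ≤ q := by exact_mod_cast ht
  have ht1 : (0 : ℝ) < t := by exact_mod_cast ht0
  have hq : (0 : ℝ) < q := by linarith
  unfold F
  have : 23 / 10 * (t : ℝ) / q ≤ 23 / 20 := by rw [div_le_iff₀ hq]; linarith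
  linarith

end Pool.Agent.H63Fr
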