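import Pool.Agent.H63Fr.Large

namespace Pool.Agent.H63Fr

open Finset

variable {q : ℕ} {P : Finset ℕ} {s : ℕ → ℕ → ℕ}

theorem rld_good (h : Sys q P s) (hq : 1296 ≤ q) (h1 : 1 ∈ P) {p : ℕ} (hp : p ∈ P)
    (hz : Nat.sqrt q < p) : ∃ t : ℕ, t * p + 1 = q ∨ t * p = q + 1 := by
  have h36 : 36 ≤ Nat.sqrt q := Nat.le_sqrt.2 hq
  by_cases a : p ∣ q - 1
  · obtain ⟨t, ht⟩ := a
    exact ⟨t, Or.inl (by rw [mul_comm, ← ht]; omega)⟩
  by_cases b : p ∣ q + 1
  · obtain ⟨t, ht⟩ := b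
    exact ⟨t, Or.inr (by rw [mul_comm, ← ht])⟩
  have := bad_lt h hq h1 hp ⟨by omega, a, b⟩
  omega

theorem rld_low (z n : ℕ) :
    ∑ i ∈ range n, (if 2 ^ i ≤ z then (2 : ℝ) ^ i else 0) ≤ 2 ^ n ∧
      ∑ i ∈ range n, (if 2 ^ i ≤ z then (2 : ℝ) ^ i else 0) ≤ 2 * z := by
  induction n with
  | zero => simp
  | succ n ih =>
    have h0 : (0 : ℝ) < 2 ^ n := by positivity
    rw [sum_range_succ, pow_succ]
    split_ifs with hn
    · have : (2 : ℝ) ^ n ≤ z := by exact_mod_cast hn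
      constructor <;> linarith [ih.1]
    · constructor <;> linarith [ih.1, ih.2]

theorem rld_high (z n : ℕ) :
    ∑ i ∈ range n, (if 2 ^ i ≤ z then 0 else 1 / (2 : ℝ) ^ i) = 0 ∨
      ∑ i ∈ range n, (if 2 ^ i ≤ z then 0 else 1 / (2 : ℝ) ^ i) + 2 * (1 / 2 ^ n) ≤
        2 * (1 / ((z : ℝ) + 1)) := by
  induction n with
  | zero => simp
  | succ n ih =>
    have h0 : (0 : ℝ) < 1 / 2 ^ n := by positivity
    have e : (2 : ℝ) * (1 / 2 ^ (n + 1)) = 1 / 2 ^ n := by
      rw [pow_succ]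
      field_simp
    rw [sum_range_succ, e]
    split_ifs with hn
    · rcases ih with ih | ih
      · exact Or.inl (by rw [ih, add_zero])
      · exact Or.inr (by linarith)
    · have h1 : (z : ℝ) + 1 ≤ 2 ^ n := by exact_mod_cast not_le.1 hn
      have h2 : 1 / (2 : ℝ) ^ n ≤ 1 / ((z : ℝ) + 1) := one_div_le_one_div_of_le (by positivity) h1
      rcases ih with ih | ih
      · exact Or.inr (by rw [ih]; linarith)
      · exact Or.inr (by linarith)

theorem rld_class (h : Sys q P s) {p y t T : ℕ} (hp : p ∈ P) (hy : y ∈ P) (hd : ¬ p ∣ y)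
    (ht : t * p + 1 = q ∨ t * p = q + 1) (hT : T * y + 1 = q ∨ T * y = q + 1) (h3 : 3 ≤ T)
    (htq : t < q) : q ≤ s p y * T + t := by
  have h1 := h.s_pos p hp y hy
  have h2 : 0 < s p y * T := Nat.mul_pos h1 (by omega)
  obtain ⟨e, he, ht'⟩ : ∃ e : ℤ, (e = 1 ∨ e = -1) ∧ (t : ℤ) * p = q + e := by
    rcases ht with a | a
    · exact ⟨-1, Or.inr rfl, by have : (t : ℤ) * p + 1 = q := by exact_mod_cast a
                                linarith⟩
    · exact ⟨1, Or.inl rfl, by exact_mod_cast a⟩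
  obtain ⟨f, hf, hT'⟩ : ∃ f : ℤ, (f = 1 ∨ f = -1) ∧ (T : ℤ) * y = q + f := by
    rcases hT with a | a
    · exact ⟨-1, Or.inr rfl, by have : (T : ℤ) * y + 1 = q := by exact_mod_cast a
                                linarith⟩
    · exact ⟨1, Or.inl rfl, by exact_mod_cast a⟩
  have key : (q : ℤ) ∣ (s p y : ℤ) * T - t ∨ (q : ℤ) ∣ (s p y : ℤ) * T + t := by
    rcases h.s_cong p hp y hy with ⟨c, hc⟩ | ⟨c, hc⟩ <;> rcases he with rfl | rfl <;>
      rcases hf with rfl | rfl
    · exact Or.inl ⟨c * t * T + t - s p y * T, by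
        linear_combination t * T * hc - s p y * T * ht' + t * hT'⟩
    · exact Or.inr ⟨c * t * T + t - s p y * T, by
        linear_combination t * T * hc - s p y * T * ht' + t * hT'⟩
    · exact Or.inr ⟨-(c * t * T + t - s p y * T), by
        linear_combination -(t * T * hc - s p y * T * ht' + t * hT')⟩
    · exact Or.inl ⟨-(c * t * T + t - s p y * T), by
        linear_combination -(t * T * hc - s p y * T * ht' + t * hT')⟩
    · exact Or.inr ⟨c * t * T - t - s p y * T, by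
        linear_combination t * T * hc - s p y * T * ht' - t * hT'⟩
    · exact Or.inl ⟨c * t * T - t - s p y * T, by
        linear_combination t * T * hc - s p y * T * ht' - t * hT'⟩
    · exact Or.inl ⟨-(c * t * T - t - s p y * T), by
        linear_combination -(t * T * hc - s p y * T * ht' - t * hT')⟩
    · exact Or.inr ⟨-(c * t * T - t - s p y * T), by
        linear_combination -(t * T * hc - s p y * T * ht' - t * hT')⟩
  have h4 : ((s p y * T : ℕ) : ℤ) = (s p y : ℤ) * T := by push_cast; rfl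
  rw [← h4] at key
  rcases key with k | k
  · by_contra hcon
    have h5 := Int.eq_zero_of_abs_lt_dvd k (by rw [abs_lt]; constructor <;> omega)
    have h6 : (s p y : ℤ) * T = t := by omega
    have h7 : (T : ℤ) * ((s p y : ℤ) * p - y) = e - f := by
      linear_combination p * h6 + ht' - hT'
    have h8 : (s p y : ℤ) * p - y ≠ 0 := fun a => hd ⟨s p y, by
      have : (y : ℤ) = p * s p y := by linarith
      exact_mod_cast this⟩
    have h9 : (3 : ℤ) ≤ T := by exact_mod_cast h3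
    rcases lt_or_gt_of_ne h8 with a | a
    · have := mul_le_mul_of_nonneg_left (show (s p y : ℤ) * p - y ≤ -1 by omega)
        (show (0 : ℤ) ≤ T by omega)
      omega
    · have := mul_le_mul_of_nonneg_left (show 1 ≤ (s p y : ℤ) * p - y by omega)
        (show (0 : ℤ) ≤ T by omega)
      omega
  · have := Int.le_of_dvd (by omega) k
    omega

theorem rld_term {m y : ℕ} (h : Big q P s m y) (hy : Nat.sqrt q < y) (hup : ∃ p ∈ P, y < p)
    {p : ℕ} (hp : p ∈ P) (hpy : p < y) (hd : ¬ p ∣ y) :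
    (q : ℝ) / s p y ≤ 1501 / 1000 * (if p ≤ Nat.sqrt q then (p : ℝ) else 0) +
      10303 / 10000 * (q + 1) * (if p ≤ Nat.sqrt q then 0 else 1 / (p : ℝ)) := by
  have hq := h.large
  have h36 : 36 ≤ Nat.sqrt q := Nat.le_sqrt.2 hq
  obtain ⟨T, hT⟩ := rld_good h.sys hq h.one_mem h.mem hy
  obtain ⟨p', hp', hyp'⟩ := hup
  have h1 := h.sys.half p' hp'
  have h3 : 3 ≤ T := by
    by_contra a
    have : T * y ≤ 2 * y := Nat.mul_le_mul_right _ (by omega)
    omega
  have h4 : 3 * y ≤ T * y := Nat.mul_le_mul_right _ h3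
  have hs : (0 : ℝ) < s p y := by exact_mod_cast h.sys.s_pos p hp y h.mem
  have hp0 : (0 : ℝ) < p := by exact_mod_cast h.sys.pos p hp
  have hq' : (1296 : ℝ) ≤ q := by exact_mod_cast hq
  split_ifs with hz
  · have h5 : (q : ℝ) ≤ s p y * p + y := by exact_mod_cast h.sys.s_mul_ge hp h.mem hd
    have h6 : (3 : ℝ) * y ≤ q + 1 := by exact_mod_cast (by omega : 3 * y ≤ q + 1)
    rw [mul_zero, add_zero, div_le_iff₀ hs]
    nlinarith
  · obtain ⟨t, ht⟩ := rld_good h.sys hq h.one_mem hp (not_le.1 hz)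
    have h5 := Nat.lt_succ_sqrt q
    have h6 := Nat.sqrt_le q
    have h7 : t ≤ Nat.sqrt q + 1 := by
      have : t * (Nat.sqrt q + 1) ≤ t * p := Nat.mul_le_mul_left _ (by omega)
      exact Nat.le_of_mul_le_mul_right (c := Nat.sqrt q + 1)
        (by simp only [Nat.succ_eq_add_one] at h5; omega) (by omega)
    have h8 : 36 * Nat.sqrt q ≤ q := (Nat.mul_le_mul_right _ h36).trans h6
    have h9 := rld_class h.sys hp h.mem hd ht hT h3 (by omega)
    have h10 : (q : ℝ) ≤ 10303 / 10000 * (s p y * T) := by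
      have a : (q : ℝ) ≤ s p y * T + (Nat.sqrt q + 1) := by
        exact_mod_cast h9.trans (Nat.add_le_add_left h7 _)
      have b : (36 : ℝ) * Nat.sqrt q ≤ q := by exact_mod_cast h8
      linarith
    have h11 : (T : ℝ) * p ≤ q + 1 := by
      have : T * p ≤ T * y := Nat.mul_le_mul_left _ hpy.le
      exact_mod_cast (by omega : T * p ≤ q + 1)
    rw [mul_zero, zero_add, mul_one_div, div_le_div_iff₀ hs hp0]
    nlinarith [mul_le_mul_of_nonneg_right h10 hp0.le, mul_le_mul_of_nonneg_left h11 hs.le]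

/-- regime L, letters below `y` that do not divide it -/
theorem rest_L_down {m y : ℕ} (h : Big q P s m y) (hy : Nat.sqrt q < y) (hup : ∃ p ∈ P, y < p) :
    ∑ p ∈ (P.erase y).filter (fun p => p < y ∧ ¬ p ∣ y), (q : ℝ) / (s p y)
      ≤ 3002 / 1000 * (Nat.sqrt q : ℝ) + 2061 / 1000 * ((Nat.sqrt q : ℝ) + 1) := by
  let G : ℕ → ℝ := fun p => 1501 / 1000 * (if p ≤ Nat.sqrt q then (p : ℝ) else 0) +
    10303 / 10000 * (q + 1) * (if p ≤ Nat.sqrt q then 0 else 1 / (p : ℝ))
  have h1 : ∑ p ∈ (P.erase y).filter (fun p => p < y ∧ ¬ p ∣ y), (q : ℝ) / (s p y) ≤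
      ∑ p ∈ (range (m + 1)).image (fun i => 2 ^ i), G p := by
    refine (sum_le_sum (g := G) fun p hp => ?_).trans
      (sum_le_sum_of_subset_of_nonneg (fun p hp => ?_) fun p _ _ => ?_)
    · obtain ⟨a, b, c⟩ := mem_filter.1 hp
      exact rld_term h hy hup (mem_of_mem_erase a) b c
    · obtain ⟨a, b, -⟩ := mem_filter.1 hp
      obtain ⟨i, hi, rfl⟩ := (h.below p).1 ⟨mem_of_mem_erase a, b⟩
      exact mem_image.2 ⟨i, mem_range.2 (by omega), rfl⟩
    · simp only [G]
      split_ifs <;> positivity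
  rw [sum_image fun a _ b _ e => Nat.pow_right_injective le_rfl e] at h1
  simp only [G, sum_add_distrib, ← mul_sum, Nat.cast_pow, Nat.cast_ofNat] at h1
  have h2 := (rld_low (Nat.sqrt q) (m + 1)).2
  have h3 : ∑ i ∈ range (m + 1), (if 2 ^ i ≤ Nat.sqrt q then 0 else 1 / (2 : ℝ) ^ i) ≤
      2 * (1 / ((Nat.sqrt q : ℝ) + 1)) := by
    rcases rld_high (Nat.sqrt q) (m + 1) with a | a
    · rw [a]
      positivity
    · have : (0 : ℝ) < 1 / 2 ^ (m + 1) := by positivity
      linarith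
  have h4 : (q : ℝ) + 1 ≤ ((Nat.sqrt q : ℝ) + 1) * ((Nat.sqrt q : ℝ) + 1) := by
    exact_mod_cast Nat.lt_succ_sqrt q
  have h5 : ((q : ℝ) + 1) * (1 / ((Nat.sqrt q : ℝ) + 1)) ≤ (Nat.sqrt q : ℝ) + 1 := by
    rw [mul_one_div, div_le_iff₀ (by positivity)]
    exact h4
  have h6 := mul_le_mul_of_nonneg_left h3 (show (0 : ℝ) ≤ 10303 / 10000 * (q + 1) by positivity)
  have h7 : (0 : ℝ) ≤ Nat.sqrt q := Nat.cast_nonneg _
  nlinarith

end Pool.Agent.H63Fr
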