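import Pool.Agent.H63Fr.Large

namespace Pool.Agent.H63Fr

open Finset

variable {q : ℕ} {P : Finset ℕ} {s : ℕ → ℕ → ℕ}

theorem rlu_good (h : Sys q P s) (hq : 1296 ≤ q) (h1 : 1 ∈ P) {p : ℕ} (hp : p ∈ P)
    (hz : Nat.sqrt q < p) : ∃ t : ℕ, 2 ≤ t ∧ (t * p + 1 = q ∨ t * p = q + 1) := by
  have hb : ¬ Bad q p := fun hb => by have := bad_lt h hq h1 hp hb; omega
  have h36 : 36 ≤ Nat.sqrt q := Nat.le_sqrt.2 (by omega)
  have hh := h.half p hp
  have key : ∃ t : ℕ, t * p + 1 = q ∨ t * p = q + 1 := by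
    by_cases a : p ∣ q - 1
    · obtain ⟨t, ht⟩ := a
      exact ⟨t, Or.inl (by rw [mul_comm]; omega)⟩
    · by_cases b : p ∣ q + 1
      · obtain ⟨t, ht⟩ := b
        exact ⟨t, Or.inr (by rw [mul_comm]; omega)⟩
      · exact absurd ⟨by omega, a, b⟩ hb
  obtain ⟨t, ht⟩ := key
  refine ⟨t, ?_, ht⟩
  by_contra hn
  have : t * p ≤ 1 * p := Nat.mul_le_mul_right p (by omega)
  omega

theorem rlu_lt {p y t T : ℕ} (hyp : y < p) (hh : 2 * p < q) (h2 : 2 ≤ t)
    (ht : t * p + 1 = q ∨ t * p = q + 1) (hT : T * y + 1 = q ∨ T * y = q + 1) : t < T := by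
  by_contra hn
  have a : T * y ≤ t * y := Nat.mul_le_mul_right y (by omega)
  have b : t * (y + 1) ≤ t * p := Nat.mul_le_mul_left t hyp
  rw [mul_add, mul_one] at b
  have c : t = 2 := by omega
  subst c
  omega

theorem rlu_inj {p p' t : ℕ} (hh' : 2 * p' < q) (h2 : 2 ≤ t)
    (ht : t * p + 1 = q ∨ t * p = q + 1) (ht' : t * p' + 1 = q ∨ t * p' = q + 1) : p' ≤ p := by
  by_contra hn
  have b : t * (p + 1) ≤ t * p' := Nat.mul_le_mul_left t (by omega)
  rw [mul_add, mul_one] at b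
  have c : t = 2 := by omega
  subst c
  omega

theorem rlu_s (h : Sys q P s) {p y t T : ℕ} (hp : p ∈ P) (hy : y ∈ P) (hyp : y < p)
    (ht : t * p + 1 = q ∨ t * p = q + 1) (hT : T * y + 1 = q ∨ T * y = q + 1) (hlt : t < T)
    (hm : ¬ Main q y p (s p y)) : (T - t) * (y - 1) ≤ s p y := by
  have hy0 := h.pos y hy
  obtain ⟨j, rfl⟩ : ∃ j, T = t + (j + 1) := ⟨T - t - 1, by omega⟩
  obtain ⟨x, rfl⟩ : ∃ x, y = x + 1 := ⟨y - 1, by omega⟩
  have e0 : (t + (j + 1)) * (x + 1) = (x + 1) * t + (j + 1) * x + (j + 1) := by ring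
  rw [e0] at hT
  rw [Nat.add_sub_cancel_left, Nat.add_sub_cancel]
  by_cases hc : 2 * ((x + 1) * t) ≤ q
  · exfalso
    have e : s p (x + 1) = (x + 1) * t := by
      refine h.s_unique hp hy hc ?_
      rcases ht with a | a
      · right
        refine ⟨(x + 1 : ℕ), ?_⟩
        rw [← a]; push_cast; ring
      · left
        refine ⟨(x + 1 : ℕ), ?_⟩
        have a' : (t : ℤ) * p = q + 1 := by exact_mod_cast a
        push_cast; linear_combination ((x : ℤ) + 1) * a'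
    refine hm (Or.inr ⟨hyp, ?_⟩)
    rw [e, mul_assoc]
    exact Nat.mul_le_mul_left _ (by omega)
  · obtain ⟨u, hu⟩ : ∃ u, q = (x + 1) * t + u := ⟨q - (x + 1) * t, by omega⟩
    have e : s p (x + 1) = u := by
      refine h.s_unique hp hy (by omega) ?_
      have hu' : (u : ℤ) = q - (x + 1) * t := by rw [hu]; push_cast; ring
      rcases ht with a | a
      · left
        refine ⟨(p : ℤ) - (x + 1), ?_⟩
        have a' : (t : ℤ) * p + 1 = q := by exact_mod_cast a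
        rw [hu']; push_cast; linear_combination (-((x : ℤ) + 1)) * a'
      · right
        refine ⟨(p : ℤ) - (x + 1), ?_⟩
        have a' : (t : ℤ) * p = q + 1 := by exact_mod_cast a
        rw [hu']; push_cast; linear_combination (-((x : ℤ) + 1)) * a'
    omega

/-- regime L, non-main letters above `y` -/
theorem rest_L_up {m y : ℕ} (h : Big q P s m y) (hy : Nat.sqrt q < y) :
    ∑ p ∈ (P.erase y).filter (fun p => y < p ∧ ¬ Main q y p (s p y)), (q : ℝ) / (s p y)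
      ≤ ((Nat.sqrt q : ℝ) + 2) * (321 / 100 + (Nat.sqrt q : ℝ) / 36) := by
  have h36 : 36 ≤ Nat.sqrt q := Nat.le_sqrt.2 (by have := h.large; omega)
  have hsq : q < (Nat.sqrt q + 1) * (Nat.sqrt q + 1) := Nat.lt_succ_sqrt q
  obtain ⟨T, -, hT⟩ := rlu_good h.sys h.large h.one_mem h.mem hy
  have hTz : T ≤ Nat.sqrt q + 1 := by
    by_contra hn
    have : (Nat.sqrt q + 2) * (Nat.sqrt q + 1) ≤ T * y := Nat.mul_le_mul (by omega) hy
    have e : (Nat.sqrt q + 2) * (Nat.sqrt q + 1)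
        = (Nat.sqrt q + 1) * (Nat.sqrt q + 1) + (Nat.sqrt q + 1) := by ring
    omega
  have hg : ∀ p : ℕ, ∃ t : ℕ, p ∈ P → y < p → 2 ≤ t ∧ (t * p + 1 = q ∨ t * p = q + 1) := by
    intro p
    by_cases a : p ∈ P ∧ y < p
    · obtain ⟨t, ht⟩ := rlu_good h.sys h.large h.one_mem a.1 (by omega)
      exact ⟨t, fun _ _ => ht⟩
    · exact ⟨0, fun b c => absurd ⟨b, c⟩ a⟩
  choose t ht using hg
  set S := (P.erase y).filter (fun p => y < p ∧ ¬ Main q y p (s p y)) with hS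
  have hmem : ∀ p ∈ S, p ∈ P ∧ y < p ∧ ¬ Main q y p (s p y) := fun p hp => by
    rw [hS, mem_filter, mem_erase] at hp
    exact ⟨hp.1.2, hp.2⟩
  have hlt : ∀ p ∈ S, t p < T := fun p hp => by
    obtain ⟨a, b, -⟩ := hmem p hp
    exact rlu_lt b (h.sys.half p a) (ht p a b).1 (ht p a b).2 hT
  have hterm : ∀ p ∈ S, (q : ℝ) / (s p y) ≤ ((Nat.sqrt q : ℝ) + 2) * (1 / ((T - t p : ℕ) : ℝ)) := by
    intro p hp
    obtain ⟨a, b, c⟩ := hmem p hp
    have h1 := rlu_s h.sys a h.mem b (ht p a b).2 hT (hlt p hp) c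
    have h2 : 0 < T - t p := by have := hlt p hp; omega
    have h3 := h.sys.s_pos p a y h.mem
    have h4 : q * (T - t p) ≤ (Nat.sqrt q + 2) * s p y := by
      have e : (Nat.sqrt q + 1) * (Nat.sqrt q + 1) = (Nat.sqrt q + 2) * Nat.sqrt q + 1 := by ring
      calc q * (T - t p) ≤ ((Nat.sqrt q + 2) * (y - 1)) * (T - t p) := by
            refine Nat.mul_le_mul_right _ (le_trans (by omega) (Nat.mul_le_mul_left _
              (show Nat.sqrt q ≤ y - 1 by omega)))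
        _ = (Nat.sqrt q + 2) * ((T - t p) * (y - 1)) := by ring
        _ ≤ _ := Nat.mul_le_mul_left _ h1
    have h2' : (0 : ℝ) < ((T - t p : ℕ) : ℝ) := by exact_mod_cast h2
    have h3' : (0 : ℝ) < (s p y : ℝ) := by exact_mod_cast h3
    rw [mul_one_div, div_le_div_iff₀ h3' h2']
    exact_mod_cast h4
  have hinj : Set.InjOn (fun p => T - t p) (S : Set ℕ) := by
    intro p hp p' hp' e
    obtain ⟨a, b, -⟩ := hmem p hp
    obtain ⟨a', b', -⟩ := hmem p' hp'
    have l1 := hlt p hp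
    have l2 := hlt p' hp'
    have e1 : t p = t p' := by simp only at e; omega
    have k1 := rlu_inj (h.sys.half p' a') (ht p a b).1 (ht p a b).2 (e1 ▸ (ht p' a' b').2)
    have k2 := rlu_inj (h.sys.half p a) (ht p a b).1 (e1 ▸ (ht p' a' b').2) (ht p a b).2
    omega
  have hsum : ∑ p ∈ S, (1 / ((T - t p : ℕ) : ℝ)) ≤ ∑ i ∈ Icc 1 (Nat.sqrt q + 1), (1 : ℝ) / i := by
    rw [← sum_image (f := fun i : ℕ => (1 : ℝ) / i) hinj]
    refine sum_le_sum_of_subset_of_nonneg (fun i hi => ?_) fun i _ _ => by positivity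
    obtain ⟨p, hp, rfl⟩ := mem_image.1 hi
    have := hlt p hp
    rw [mem_Icc]
    omega
  calc _ ≤ ∑ p ∈ S, ((Nat.sqrt q : ℝ) + 2) * (1 / ((T - t p : ℕ) : ℝ)) := sum_le_sum hterm
    _ = ((Nat.sqrt q : ℝ) + 2) * ∑ p ∈ S, (1 / ((T - t p : ℕ) : ℝ)) := by rw [mul_sum]
    _ ≤ _ := mul_le_mul_of_nonneg_left (hsum.trans (harm_le h36)) (by positivity)

end Pool.Agent.H63Fr
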