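import Pool.Agent.H63Fr.Large

namespace Pool.Agent.H63Fr

open Finset

variable {q : ℕ} {P : Finset ℕ} {s : ℕ → ℕ → ℕ}

theorem restS_geom (n : ℕ) : ∑ i ∈ range n, 2 ^ i + 1 = 2 ^ n := by
  induction n with
  | zero => simp
  | succ n ih => rw [sum_range_succ, pow_succ]; omega

theorem restS_div {t p y c : ℕ} (ht : 0 < t) (hc : 1 ≤ c) (hy : 36 * y ≤ q)
    (h : c * q ≤ t * p + y) : (q : ℝ) / t ≤ 36 / 35 * (p / c) := by
  have h1 : 35 * (q * c) ≤ 36 * (p * t) := by nlinarith
  have h2 : (35 : ℝ) * (q * c) ≤ 36 * (p * t) := by exact_mod_cast h1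
  have h3 : (0 : ℝ) < t := by exact_mod_cast ht
  have h4 : (0 : ℝ) < c := by exact_mod_cast hc
  rw [← mul_div_assoc, div_le_div_iff₀ h3 h4]
  linarith

/-- a good letter above `y` that is not of the main type is `y + c` -/
theorem restS_good (h : Sys q P s) {p y : ℕ} (hp : p ∈ P) (hy : y ∈ P) (hlt : y < p)
    (hb : ¬ Bad q p) (hm : ¬ y * (q - 1) ≤ s p y * p) :
    ∃ c, 1 ≤ c ∧ c < y ∧ p = y + c ∧ c * q ≤ s p y * p + y := by
  have hy0 := h.pos y hy
  have hq := h.half y hy
  obtain ⟨c, hc, h1⟩ := h.s_cases hp hy fun hd => (Nat.le_of_dvd hy0 hd).not_gt hlt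
  obtain ⟨q', rfl⟩ : ∃ q', q = q' + 1 := ⟨q - 1, by omega⟩
  rw [Nat.add_sub_cancel] at hm
  have h2 : c * (q' + 1) ≤ s p y * p + y := by omega
  have hcy : c < y := by
    by_contra hn
    have := Nat.mul_le_mul_right (q' + 1) (not_lt.1 hn)
    rw [mul_add_one] at this
    omega
  have hd : p ∣ q' ∨ p ∣ q' + 1 + 1 := by
    by_contra hn
    exact hb ⟨by omega, fun a => hn (Or.inl (by simpa using a)), fun a => hn (Or.inr a)⟩
  have hs : p ∣ s p y * p := Dvd.intro_left _ rfl
  have hno : ¬ p ∣ y - c := fun a => by have := Nat.le_of_dvd (by omega) a; omega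
  have hdv : p ∣ y + c := by
    rcases hd with a | a <;> rcases h1 with b | b
    · have e : s p y * p = c * q' + (y + c) := by rw [b]; ring
      exact (Nat.dvd_add_right (a.mul_left c)).1 (e ▸ hs)
    · have e : c * q' = s p y * p + (y - c) := by rw [mul_add_one] at b; omega
      exact absurd ((Nat.dvd_add_right hs).1 (e ▸ a.mul_left c)) hno
    · have e : s p y * p = c * (q' + 1 + 1) + (y - c) := by rw [mul_add_one]; omega
      exact absurd ((Nat.dvd_add_right (a.mul_left c)).1 (e ▸ hs)) hno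
    · have e : c * (q' + 1 + 1) = s p y * p + (y + c) := by rw [mul_add_one]; omega
      exact (Nat.dvd_add_right hs).1 (e ▸ a.mul_left c)
  refine ⟨c, hc, hcy, ?_, h2⟩
  obtain ⟨k, hk⟩ := hdv
  rcases k with _ | _ | k
  · omega
  · omega
  · nlinarith

theorem rest_S {m y : ℕ} (h : Big q P s m y) (hy : y ≤ Nat.sqrt q) :
    ∑ p ∈ (P.erase y).filter (fun p => ¬ Main q y p (s p y)), (q : ℝ) / (s p y)
      ≤ 36 / 35 * (Nat.sqrt q : ℝ) * (751 / 100 + (Nat.sqrt q : ℝ) / 36) := by
  have hz : 36 ≤ Nat.sqrt q := Nat.le_sqrt.2 (le_trans (by norm_num) h.large)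
  have h36 : 36 * y ≤ q := (Nat.mul_le_mul hz hy).trans (Nat.sqrt_le q)
  have hy0 := h.sys.pos y h.mem
  have hyz : (y : ℝ) ≤ Nat.sqrt q := by exact_mod_cast hy
  have hC0 : ∀ p : ℕ, (0 : ℝ) ≤ if y < p ∧ p < 2 * y then (y : ℝ) / (p - y) + 1 else 0 := by
    intro p
    split_ifs with c
    · have : (y : ℝ) < p := by exact_mod_cast c.1
      have : (0 : ℝ) < p - y := by linarith
      positivity
    · exact le_rfl
  have hA0 : ∀ p : ℕ, (0 : ℝ) ≤ if p < y then (p : ℝ) else 0 := fun p => by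
    split_ifs <;> positivity
  have hB0 : ∀ p : ℕ, (0 : ℝ) ≤ if Bad q p then (p : ℝ) else 0 := fun p => by
    split_ifs <;> positivity
  have key : ∀ p ∈ (P.erase y).filter (fun p => ¬ Main q y p (s p y)), (q : ℝ) / (s p y) ≤
      36 / 35 * ((if p < y then (p : ℝ) else 0) + (if Bad q p then (p : ℝ) else 0) +
        if y < p ∧ p < 2 * y then (y : ℝ) / (p - y) + 1 else 0) := by
    intro p hp
    obtain ⟨hp, hm⟩ := mem_filter.1 hp
    obtain ⟨hne, hp⟩ := mem_erase.1 hp
    have hs := h.sys.s_pos p hp y h.mem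
    have a1 := hA0 p
    have a2 := hB0 p
    have a3 := hC0 p
    have hone : ¬ p ∣ y → (q : ℝ) / (s p y) ≤ 36 / 35 * p := fun hd => by
      have := restS_div (p := p) hs le_rfl h36
        (by rw [one_mul]; exact h.sys.s_mul_ge hp h.mem hd)
      rwa [Nat.cast_one, div_one] at this
    rcases hne.lt_or_gt with hlt | hlt
    · have := hone fun hd => hm (Or.inl ⟨hlt, hd⟩)
      rw [if_pos hlt]
      linarith
    · by_cases hb : Bad q p
      · have := hone fun hd => (Nat.le_of_dvd hy0 hd).not_gt hlt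
        rw [if_pos hb]
        linarith
      · obtain ⟨c, h1, h2, h3, h4⟩ :=
          restS_good h.sys hp h.mem hlt hb fun a => hm (Or.inr ⟨hlt, a⟩)
        have h5 := restS_div hs h1 h36 h4
        have h6 : (0 : ℝ) < c := by exact_mod_cast h1
        have h7 : (p : ℝ) / c = y / (p - y) + 1 := by
          rw [h3]; push_cast; rw [add_sub_cancel_left]; field_simp
        rw [if_pos (show y < p ∧ p < 2 * y from ⟨hlt, by omega⟩), ← h7]
        linarith
  have hA : ∑ p ∈ P, (if p < y then (p : ℝ) else 0) ≤ 2 * y := by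
    rw [← sum_filter]
    have h1 : P.filter (fun p => p < y) ⊆ (range (m + 1)).image fun i => 2 ^ i := by
      intro p hp
      obtain ⟨i, hi, e⟩ := (h.below p).1 (mem_filter.1 hp)
      exact mem_image.2 ⟨i, mem_range.2 (by omega), e.symm⟩
    have h2 : ∑ p ∈ P.filter (fun p => p < y), p ≤ 2 * y := by
      refine (sum_le_sum_of_subset h1).trans ?_
      rw [sum_image fun _ _ _ _ e => Nat.pow_right_injective le_rfl e]
      have h3 := restS_geom (m + 1)
      have h4 := h.gt
      rw [pow_succ] at h3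
      omega
    have h5 := (Nat.cast_le (α := ℝ)).2 h2
    rwa [Nat.cast_sum, Nat.cast_mul, Nat.cast_ofNat] at h5
  have hB : ∑ p ∈ P, (if Bad q p then (p : ℝ) else 0) ≤ 13 / 10 * (Nat.sqrt q : ℝ) := by
    rw [← sum_filter]
    have h1 := mass_le h.sys h.large h.one_mem
    have h2 := (Nat.cast_le (α := ℝ)).2 h.sys.sum_le
    rw [Nat.cast_sum] at h2
    linarith
  have hC : ∑ p ∈ P, (if y < p ∧ p < 2 * y then (y : ℝ) / (p - y) + 1 else 0) ≤
      y * (321 / 100 + (Nat.sqrt q : ℝ) / 36) + y := by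
    rw [← sum_filter]
    have h1 : P.filter (fun p => y < p ∧ p < 2 * y) ⊆ (Icc 1 y).image fun c => y + c := by
      intro p hp
      have := (mem_filter.1 hp).2
      exact mem_image.2 ⟨p - y, mem_Icc.2 ⟨by omega, by omega⟩, by omega⟩
    refine (sum_le_sum_of_subset_of_nonneg h1 fun p hp _ => ?_).trans ?_
    · obtain ⟨c, _, rfl⟩ := mem_image.1 hp
      push_cast
      rw [add_sub_cancel_left]
      positivity
    · rw [sum_image fun _ _ _ _ e => Nat.add_left_cancel e]
      have h2 : ∀ c ∈ Icc 1 y, (y : ℝ) / ((y + c : ℕ) - y) + 1 = y * (1 / c) + 1 := by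
        intro c _
        push_cast
        rw [add_sub_cancel_left, mul_one_div]
      rw [sum_congr rfl h2, sum_add_distrib, ← mul_sum, sum_const, Nat.card_Icc,
        Nat.add_sub_cancel, nsmul_one]
      have h3 : ∑ c ∈ Icc 1 y, (1 : ℝ) / c ≤ 321 / 100 + (Nat.sqrt q : ℝ) / 36 :=
        (sum_le_sum_of_subset_of_nonneg (Icc_subset_Icc_right (by omega))
          fun _ _ _ => by positivity).trans (harm_le hz)
      gcongr
  refine (sum_le_sum key).trans ((sum_le_sum_of_subset_of_nonneg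
    ((filter_subset _ _).trans (erase_subset _ _)) fun p _ _ => ?_).trans ?_)
  · have a1 := hA0 p
    have a2 := hB0 p
    have a3 := hC0 p
    positivity
  · rw [← mul_sum, sum_add_distrib, sum_add_distrib, mul_assoc]
    have h1 : (y : ℝ) * (321 / 100 + (Nat.sqrt q : ℝ) / 36) ≤
        (Nat.sqrt q : ℝ) * (321 / 100 + (Nat.sqrt q : ℝ) / 36) := by gcongr
    refine mul_le_mul_of_nonneg_left ?_ (by norm_num)
    linarith

end Pool.Agent.H63Fr
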