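import Pool.Agent.H63Fr.Large

namespace Pool.Agent.H63Fr

open Finset

variable {q : ℕ} {P : Finset ℕ} {s : ℕ → ℕ → ℕ}

theorem top_sum (m : ℕ) : ∑ p ∈ chain 1 m, p + 1 = 2 * 2 ^ m := by
  unfold chain
  rw [sum_image]
  · simp only [mul_one]
    induction m with
    | zero => simp
    | succ k ih => rw [sum_range_succ, pow_succ]; omega
  · intro i _ j _ hij
    simp only [mul_one] at hij
    exact Nat.pow_right_injective (le_refl 2) hij

theorem top_eq {m y : ℕ} (h : Big q P s m y) (hmax : ∀ p ∈ P, p ≤ y) :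
    P = insert y (chain 1 m) := by
  ext p
  rw [mem_insert, mem_chain]
  simp only [mul_one]
  constructor
  · intro hp
    rcases (hmax p hp).lt_or_eq with hlt | heq
    · exact Or.inr ((h.below p).1 ⟨hp, hlt⟩)
    · exact Or.inl heq
  · rintro (rfl | hc)
    · exact h.mem
    · exact ((h.below p).2 hc).1

theorem top_notMem {m y : ℕ} (h : Big q P s m y) : y ∉ chain 1 m := by
  rw [mem_chain]
  simp only [mul_one]
  intro hc
  exact lt_irrefl _ ((h.below y).2 hc).2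

theorem top_good (h : Sys q P s) (hq : 1296 ≤ q) (h1 : 1 ∈ P) {p : ℕ} (hp : p ∈ P)
    (hz : Nat.sqrt q ≤ p) (hp1 : p ≠ 1) : ∃ T : ℕ, p * T + 1 = q ∨ p * T = q + 1 := by
  by_contra hn
  have hb : Bad q p := by
    refine ⟨hp1, ?_, ?_⟩
    · rintro ⟨T, hT⟩
      exact hn ⟨T, Or.inl (by omega)⟩
    · rintro ⟨T, hT⟩
      exact hn ⟨T, Or.inr hT.symm⟩
  have := bad_lt h hq h1 hp hb
  omega

theorem top_mult {p T : ℕ} (hT : p * T + 1 = q ∨ p * T = q + 1) (h5 : q + 1 < 5 * p) :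
    T ≤ 4 := by
  by_contra hn
  have : p * 5 ≤ p * T := Nat.mul_le_mul_left p (by omega)
  omega

/-- case L0 -/
theorem top_case {m y : ℕ} (h : Big q P s m y) (hmax : ∀ p ∈ P, p ≤ y) : Goal q P := by
  have hP := top_eq h hmax
  have hsum : ∑ p ∈ P, p + 1 = y + 2 * 2 ^ m := by
    have h0 := top_sum m
    rw [hP, sum_insert (top_notMem h)]
    omega
  have hq := h.large
  have h1 := h.one_mem
  have hz36 : 36 ≤ Nat.sqrt q := Nat.le_sqrt.2 (by omega)
  have hzz : Nat.sqrt q * Nat.sqrt q ≤ q := Nat.sqrt_le q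
  have hz : 36 * Nat.sqrt q ≤ q := le_trans (Nat.mul_le_mul_right _ hz36) hzz
  have hmass : 10 * q ≤ 10 * ∑ p ∈ P, p + 13 * Nat.sqrt q := by
    have a := mass_le h.sys hq h1
    have b : (0 : ℝ) ≤ ∑ p ∈ P.filter (Bad q), (p : ℝ) :=
      sum_nonneg fun p _ => Nat.cast_nonneg p
    have c : (10 : ℝ) * q ≤ 10 * ∑ p ∈ P, (p : ℝ) + 13 * (Nat.sqrt q : ℝ) := by linarith
    rw [← Nat.cast_sum] at c
    exact_mod_cast c
  have hle := h.sys.sum_le
  have hy2 := h.sys.half y h.mem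
  have hgt := h.gt
  have hne := h.ne
  rw [pow_succ] at hne
  have hM : 2 ^ m ∈ P := ((h.below _).2 ⟨m, le_refl m, rfl⟩).1
  obtain ⟨T, hT⟩ := top_good h.sys hq h1 hM (by omega) (by omega)
  obtain ⟨t, ht⟩ := top_good h.sys hq h1 h.mem (by omega) (by omega)
  have hT4 := top_mult hT (by omega)
  have ht4 := top_mult ht (by omega)
  have key : q + 1 = 4 * 2 ^ m ∧ y = 2 * 2 ^ m - 1 := by
    generalize 2 ^ m = M at *
    generalize ∑ p ∈ P, p = S at *
    generalize Nat.sqrt q = z at *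
    interval_cases T <;> interval_cases t <;> omega
  exact ⟨m, key.1, by rw [← key.2]; exact hP⟩

end Pool.Agent.H63Fr
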