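import Pool.Agent.H63Fr.LemB
import Pool.Agent.H63Fr.Top
import Pool.Agent.H63Fr.RestS
import Pool.Agent.H63Fr.RestLUp
import Pool.Agent.H63Fr.RestLDown

namespace Pool.Agent.H63Fr

open Finset

variable {q : ℕ} {P : Finset ℕ} {s : ℕ → ℕ → ℕ}

theorem mb_div {m y : ℕ} (h : Big q P s m y) :
    3 * (∑ p ∈ P.filter (fun p => p < y ∧ p ∣ y), p + 1) ≤ 2 * y := by
  have h0 := h.gt
  have h1 : 0 < 2 ^ m := by positivity
  rcases (P.filter (fun p => p < y ∧ p ∣ y)).eq_empty_or_nonempty with he | he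
  · rw [he, sum_empty]
    omega
  obtain ⟨a, ha, hmax⟩ := exists_max_image _ id he
  obtain ⟨h2, h3, k, h4⟩ := mem_filter.1 ha
  obtain ⟨v, hv, rfl⟩ := (h.below a).1 ⟨h2, h3⟩
  have h5 : 3 ≤ k := by
    by_contra hk
    have h5 := Nat.pow_le_pow_right two_pos (show v + 1 ≤ m from lt_of_le_of_ne hv fun e => by
      have := h.ne
      rw [← e, pow_succ] at this
      have : k = 0 ∨ k = 1 ∨ k = 2 := by omega
      rcases this with rfl | rfl | rfl <;> omega)
    rw [pow_succ] at h5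
    have := Nat.mul_le_mul_left (2 ^ v) (show k ≤ 2 by omega)
    omega
  have h6 : ∑ p ∈ P.filter (fun p => p < y ∧ p ∣ y), p ≤ ∑ i ∈ range (v + 1), 2 ^ i := by
    rw [← sum_image (g := fun i => 2 ^ i) (f := fun p => p)
      (Nat.pow_right_injective le_rfl).injOn]
    refine sum_le_sum_of_subset fun p hp => ?_
    obtain ⟨i, -, rfl⟩ := (h.below p).1 ⟨(mem_filter.1 hp).1, (mem_filter.1 hp).2.1⟩
    exact mem_image.2 ⟨i, mem_range.2 (Nat.lt_succ_of_le
      ((Nat.pow_le_pow_iff_right one_lt_two).1 (hmax _ hp))), rfl⟩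
  rw [Nat.geomSum_eq le_rfl, pow_succ] at h6
  have := Nat.mul_le_mul_left (2 ^ v) h5
  have : 0 < 2 ^ v := by positivity
  omega

theorem main_bound {m y : ℕ} (h : Big q P s m y) :
    ∑ p ∈ (P.erase y).filter (fun p => Main q y p (s p y)), (q : ℝ) / (s p y) ≤ 2 * (q : ℝ) / 3 := by
  have hq : (1296 : ℝ) ≤ q := by exact_mod_cast h.large
  have hy0 := h.sys.pos y h.mem
  have hy : (0 : ℝ) < y := by exact_mod_cast hy0
  have h1 : ∑ p ∈ (P.erase y).filter (fun p => Main q y p (s p y)), (q : ℝ) / (s p y) ≤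
      ∑ p ∈ P, ((if p < y ∧ p ∣ y then (q : ℝ) / y * p else 0) +
        if y < p then (q : ℝ) / (y * (q - 1)) * p else 0) := by
    have h0 : (0 : ℝ) < q - 1 := by linarith
    refine (sum_le_sum fun p hp => ?_).trans (sum_le_sum_of_subset_of_nonneg
      ((filter_subset _ _).trans (erase_subset _ _)) fun _ _ _ => by positivity)
    obtain ⟨h1, h2⟩ := mem_filter.1 hp
    have h3 := mem_of_mem_erase h1
    have h4 : (0 : ℝ) < s p y := by exact_mod_cast h.sys.s_pos p h3 y h.mem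
    rcases h2 with ⟨h2, k, hk⟩ | ⟨h2, h5⟩
    · have h5 : s p y = k := h.sys.s_unique h3 h.mem (by
        have := h.sys.half y h.mem
        have := Nat.mul_le_mul_right k (h.sys.pos p h3)
        omega) (Or.inl (by rw [hk]; push_cast; rw [mul_comm, sub_self]; exact dvd_zero _))
      have h6 : (y : ℝ) = p * s p y := by rw [h5]; exact_mod_cast hk
      rw [if_pos ⟨h2, k, hk⟩, if_neg h2.not_gt, add_zero, div_mul_eq_mul_div, div_le_div_iff₀ h4 hy,
        mul_assoc, ← h6]
    · have h6 : (y : ℝ) * (q - 1) ≤ s p y * p := by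
        have : ((q - 1 : ℕ) : ℝ) = q - 1 := by rw [Nat.cast_sub (by linarith [h.large]), Nat.cast_one]
        rw [← this]
        exact_mod_cast h5
      rw [if_neg fun h => h2.not_gt h.1, if_pos h2, zero_add, div_mul_eq_mul_div,
        div_le_div_iff₀ h4 (by positivity), mul_assoc, mul_comm (p : ℝ)]
      exact mul_le_mul_of_nonneg_left h6 (by positivity)
  have h2 : 3 * (∑ p ∈ P.filter (fun p => p < y ∧ p ∣ y), (p : ℝ) + 1) ≤ 2 * y := by
    rw [← Nat.cast_sum]
    exact_mod_cast mb_div h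
  have h3 : ∑ p ∈ P.filter (fun p => y < p), (p : ℝ) ≤ q - 1 := by
    have h3 : ∑ p ∈ P.filter (fun p => y < p), p ≤ ∑ p ∈ P.erase 1, p :=
      sum_le_sum_of_subset fun p hp => mem_erase.2 ⟨by
        have := (mem_filter.1 hp).2
        omega, (mem_filter.1 hp).1⟩
    have h4 := add_sum_erase P (fun p => p) h.one_mem
    have h5 := h.sys.sum_le
    have h6 : ∑ p ∈ P.filter (fun p => y < p), p + 1 ≤ q := by omega
    rw [le_sub_iff_add_le, ← Nat.cast_sum]
    exact_mod_cast h6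
  rw [sum_add_distrib, ← sum_filter, ← sum_filter, ← mul_sum, ← mul_sum] at h1
  have h4 : (0 : ℝ) < q - 1 := by linarith
  have h5 := mul_le_mul_of_nonneg_left h3 (show 0 ≤ (q : ℝ) / (y * (q - 1)) by positivity)
  have h6 := mul_le_mul_of_nonneg_left h2 (show 0 ≤ (q : ℝ) / y by positivity)
  rw [show (q : ℝ) / (y * (q - 1)) * (q - 1) = q / y by field_simp] at h5
  rw [show (q : ℝ) / y * (2 * y) = 2 * q by field_simp] at h6
  linarith

/-- case L1 is impossible -/
theorem not_up {m y : ℕ} (h : Big q P s m y) : ∀ p ∈ P, p ≤ y := by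
  intro p hp
  by_contra! hup
  have hz : (36 : ℝ) ≤ Nat.sqrt q := by exact_mod_cast Nat.le_sqrt.2 h.large
  have hq : (Nat.sqrt q : ℝ) * Nat.sqrt q ≤ q := by exact_mod_cast Nat.sqrt_le q
  have h1 := (h.sys.J y h.mem).trans (sum_le_sum fun p hp =>
    F_le_add (h.sys.s_pos p (mem_of_mem_erase hp) y h.mem)
      (h.sys.s_half p (mem_of_mem_erase hp) y h.mem))
  have h2 : ((P.erase y).card : ℝ) ≤ 2 * Nat.sqrt q := by
    exact_mod_cast card_erase_le.trans (card_le h.sys)
  rw [sum_add_distrib, sum_const, nsmul_eq_mul,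
    ← sum_filter_add_sum_filter_not _ fun p => Main q y p (s p y)] at h1
  have h3 := main_bound h
  have h4 : (0 : ℝ) ≤ 8 / (5 * q) := by positivity
  rcases le_or_gt y (Nat.sqrt q) with hy | hy
  · have h5 := rest_S h hy
    nlinarith
  · have h5 := rest_L_down h hy ⟨p, hp, hup⟩
    have h6 := rest_L_up h hy
    have h7 : ∑ p ∈ (P.erase y).filter (fun p => ¬ Main q y p (s p y)), (q : ℝ) / (s p y) =
        ∑ p ∈ (P.erase y).filter (fun p => p < y ∧ ¬ p ∣ y), (q : ℝ) / (s p y) +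
        ∑ p ∈ (P.erase y).filter (fun p => y < p ∧ ¬ Main q y p (s p y)), (q : ℝ) / (s p y) := by
      rw [sum_filter, sum_filter, sum_filter, ← sum_add_distrib]
      refine sum_congr rfl fun p hp => ?_
      rcases lt_or_gt_of_ne (ne_of_mem_erase hp) with h7 | h7 <;> simp [Main, h7, h7.not_gt]
    nlinarith

theorem large_case (h : Sys q P s) (hq : 1296 ≤ q) (hne : P.Nonempty) :
    (∃ a m, P = chain a m) ∨ Goal q P := by
  have h1 := one_mem_of_large h (by omega) hne
  rcases chain_struct h hq h1 with ⟨m, hm⟩ | ⟨m, y, hb⟩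
  · exact Or.inl ⟨1, m, hm⟩
  · exact Or.inr (top_case hb (not_up hb))

end Pool.Agent.H63Fr
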