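import Pool.Agent.H63Fr.Budget

namespace Pool.Agent.H63Fr

open Finset

variable {q : ℕ} {P : Finset ℕ} {s : ℕ → ℕ → ℕ}

/-- a multiple of a letter `a ≥ 2` divides neither `q - a` nor `q + a` -/
theorem lemB_bad (h : Sys q P s) {a p : ℕ} (ha : a ∈ P) (ha1 : a ≠ 1) (hap : a ∣ p) :
    ¬ p ∣ q - a ∧ ¬ p ∣ q + a := by
  have h1 := h.half a ha
  have hq : ¬ a ∣ q := fun hq => ha1 (Nat.Coprime.eq_one_of_dvd (h.cop a ha) hq)
  constructor
  · intro hp
    apply hq
    have := Nat.dvd_add (hap.trans hp) (dvd_refl a)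
    rwa [Nat.sub_add_cancel (by omega)] at this
  · intro hp
    exact hq ((Nat.dvd_add_left (dvd_refl a)).1 (hap.trans hp))

theorem lemB_num {x : ℝ} (hx : 4 ≤ x) : 11 / 160 * x ≤ x / 2 - 23 / 5 / x - 23 / 10 / x := by
  have hx0 : 0 < x := by linarith
  have h1 : 1 / x ≤ x / 16 := by
    rw [div_le_div_iff₀ hx0 (by norm_num)]
    nlinarith
  have h2 : 23 / 5 / x = 23 / 5 * (1 / x) := by ring
  have h3 : 23 / 10 / x = 23 / 10 * (1 / x) := by ring
  rw [h2, h3]
  linarith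

/-- the joint loss of a third letter -/
theorem lemB_joint (h : Sys q P s) {a y p : ℕ} (ha : a ∈ P) (hmin : ∀ p ∈ P, a ≤ p) (hy : y ∈ P)
    (hd : ¬ a ∣ y) (hbelow : ∀ p ∈ P, p < y → a ∣ p) (hp : p ∈ P) (hpa : p ≠ a) (hpy : p ≠ y) :
    11 / 160 * (p : ℝ) ≤ ell q p a (s p a) + ell q p y (s p y) ∨
      (p = a + y ∧ 2 * (p : ℝ) * a / (q + a) - 23 / 5 / p ≤
        ell q p a (s p a) + ell q p y (s p y)) := by
  have ha0 := h.pos a ha
  have ha1 : a ≠ 1 := fun e => hd (e ▸ one_dvd y)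
  have hay : a < y := lt_of_le_of_ne (hmin y hy) (fun e => hd (e ▸ dvd_refl a))
  have hap : a < p := lt_of_le_of_ne (hmin p hp) hpa.symm
  have hqa := h.half a ha
  have hqy := h.half y hy
  have d1 : ¬ p ∣ a := fun e => absurd (Nat.le_of_dvd ha0 e) (by omega)
  have d2 : ¬ p ∣ y := fun e =>
    hd ((hbelow p hp (lt_of_le_of_ne (Nat.le_of_dvd (by omega) e) hpy)).trans e)
  have a1 := ell_a h hp ha d1
  have a2 := ell_a h hp hy d2
  by_cases g1 : ¬ p ∣ q - a ∧ ¬ p ∣ q + a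
  · obtain ⟨b1, b2⟩ := ell_b h hp ha d1 g1.1 g1.2
    have := lemB_num (x := p) (by exact_mod_cast b1)
    left; linarith
  by_cases g2 : ¬ p ∣ q - y ∧ ¬ p ∣ q + y
  · obtain ⟨b1, b2⟩ := ell_b h hp hy d2 g2.1 g2.2
    have := lemB_num (x := p) (by exact_mod_cast b1)
    left; linarith
  right
  have hyp : y < p := by
    by_contra hn
    exact g1 (lemB_bad h ha ha1 (hbelow p hp (by omega)))
  have k1 : ¬ p ∣ y - a := fun e => absurd (Nat.le_of_dvd (by omega) e) (by omega)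
  have k2 : p ∣ a + y → p = a + y := by
    rintro ⟨c, hc⟩
    have hc1 : c = 1 := by
      rcases c with _ | _ | c
      · omega
      · rfl
      · exfalso; nlinarith
    rw [hc, hc1, mul_one]
  have e : 23 / 5 / (p : ℝ) = 23 / 10 / p + 23 / 10 / p := by ring
  have g1' : p ∣ q - a ∨ p ∣ q + a := by tauto
  have g2' : p ∣ q - y ∨ p ∣ q + y := by tauto
  rcases g1' with u | u <;> rcases g2' with v | v
  · exact absurd (by
      have := Nat.dvd_sub u v
      rwa [show q - a - (q - y) = y - a by omega] at this) k1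
  · refine ⟨k2 (by
      have := Nat.dvd_sub v u
      rwa [show q + y - (q - a) = a + y by omega] at this), ?_⟩
    have c1 := ell_c h hp hy (by omega) v
    have hq0 : (0 : ℝ) < q := by exact_mod_cast (by omega : 0 < q)
    have hay' : (a : ℝ) ≤ y := by exact_mod_cast hay.le
    have ha0' : (0 : ℝ) < a := by exact_mod_cast ha0
    have hp0 : (0 : ℝ) < p := by exact_mod_cast (by omega : 0 < p)
    have : 2 * (p : ℝ) * a / (q + a) ≤ 2 * (p : ℝ) * y / (q + y) := by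
      rw [div_le_div_iff₀ (by linarith) (by linarith)]
      nlinarith [mul_nonneg (mul_pos hp0 hq0).le (sub_nonneg.2 hay')]
    linarith
  · refine ⟨k2 (by
      have := Nat.dvd_sub u v
      rwa [show q + a - (q - y) = a + y by omega] at this), ?_⟩
    have c1 := ell_c h hp ha (by omega) u
    linarith
  · exact absurd (by
      have := Nat.dvd_sub v u
      rwa [show q + y - (q + a) = y - a by omega] at this) k1

/-- Lemma B -/
theorem lemB (h : Sys q P s) {a y : ℕ} (ha : a ∈ P) (hmin : ∀ p ∈ P, a ≤ p) (hy : y ∈ P)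
    (hd : ¬ a ∣ y) (hbelow : ∀ p ∈ P, p < y → a ∣ p) : q < 140 := by
  by_contra hq
  have hq' : (140 : ℝ) ≤ q := by exact_mod_cast not_lt.1 hq
  have ha0 := h.pos a ha
  have ha1 : a ≠ 1 := fun e => hd (e ▸ one_dvd y)
  have hay : a < y := lt_of_le_of_ne (hmin y hy) (fun e => hd (e ▸ dvd_refl a))
  have hqy := h.half y hy
  have ha2 : (2 : ℝ) ≤ a := by exact_mod_cast (by omega : 2 ≤ a)
  have hy3 : (3 : ℝ) ≤ y := by exact_mod_cast (by omega : 3 ≤ y)
  have hay' : (a : ℝ) + 1 ≤ y := by exact_mod_cast hay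
  have hqy' : 2 * (y : ℝ) + 1 ≤ q := by exact_mod_cast hqy
  have hya : y ∈ P.erase a := mem_erase.2 ⟨hay.ne', hy⟩
  have hay2 : a ∈ P.erase y := mem_erase.2 ⟨hay.ne, ha⟩
  have b1 := budget h ha
  have b2 := budget h hy
  have hd0 : ∑ p ∈ P, (p : ℝ) ≤ q := by
    have e : ((∑ p ∈ P, p : ℕ) : ℝ) ≤ q := Nat.cast_le.2 h.sum_le
    rwa [Nat.cast_sum] at e
  rw [← add_sum_erase _ _ hya] at b1
  rw [← add_sum_erase _ _ hay2, erase_right_comm] at b2
  have hs : ∑ p ∈ P, (p : ℝ) = a + (y + ∑ p ∈ (P.erase a).erase y, (p : ℝ)) := by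
    rw [add_sum_erase _ (fun p : ℕ => (p : ℝ)) hya, add_sum_erase _ (fun p : ℕ => (p : ℝ)) ha]
  have l1 := ell_a h hy ha (fun e => absurd (Nat.le_of_dvd ha0 e) (by omega))
  have l2 := ell_a h ha hy hd
  have i1 : 23 / 10 / (a : ℝ) ≤ 23 / 20 := by rw [div_le_iff₀ (by linarith)]; linarith
  have i2 : 23 / 10 / (y : ℝ) ≤ 23 / 30 := by rw [div_le_iff₀ (by linarith)]; linarith
  set R := (P.erase a).erase y with hR
  have hmem : ∀ p ∈ R, p ∈ P ∧ p ≠ a ∧ p ≠ y := fun p hp => by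
    rw [hR, mem_erase, mem_erase] at hp
    exact ⟨hp.2.2, hp.2.1, hp.1⟩
  have hj := fun p (hp : p ∈ R) =>
    lemB_joint h ha hmin hy hd hbelow (hmem p hp).1 (hmem p hp).2.1 (hmem p hp).2.2
  have hadd : ∑ p ∈ R, (ell q p a (s p a) + ell q p y (s p y)) =
      ∑ p ∈ R, ell q p a (s p a) + ∑ p ∈ R, ell q p y (s p y) := sum_add_distrib
  by_cases hE : ∀ p ∈ R, 11 / 160 * (p : ℝ) ≤ ell q p a (s p a) + ell q p y (s p y)
  · have h1 := sum_le_sum hE
    rw [← mul_sum] at h1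
    rcases R.eq_empty_or_nonempty with e | ⟨p, hp⟩
    · rw [e] at hs h1 hadd b1 b2
      simp only [sum_empty] at hs b1 b2
      linarith
    · have h2 : (p : ℝ) ≤ ∑ p ∈ R, (p : ℝ) :=
        single_le_sum (f := fun p : ℕ => (p : ℝ)) (fun i _ => Nat.cast_nonneg i) hp
      have h3 : (a : ℝ) ≤ p := by exact_mod_cast hmin p (hmem p hp).1
      linarith
  · push Not at hE
    obtain ⟨w, hw, hw'⟩ := hE
    obtain ⟨hw1, hw2⟩ := (hj w hw).resolve_left (not_le.2 hw')
    have hZ : ∀ p ∈ R.erase w, 11 / 160 * (p : ℝ) ≤ ell q p a (s p a) + ell q p y (s p y) := by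
      intro p hp
      obtain ⟨hp1, hp2⟩ := mem_erase.1 hp
      exact (hj p hp2).resolve_right (fun e => hp1 (e.1.trans hw1.symm))
    have h1 := sum_le_sum hZ
    rw [← mul_sum] at h1
    have h2 := add_sum_erase R (fun p => ell q p a (s p a) + ell q p y (s p y)) hw
    have h3 := add_sum_erase R (fun p : ℕ => (p : ℝ)) hw
    have h4 : (0 : ℝ) ≤ ∑ p ∈ R.erase w, (p : ℝ) := sum_nonneg (fun i _ => Nat.cast_nonneg i)
    have hw3 : (w : ℝ) = a + y := by exact_mod_cast hw1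
    have i3 : 23 / 5 / (w : ℝ) ≤ 23 / 25 := by rw [div_le_iff₀ (by linarith)]; linarith
    have i4 : (0 : ℝ) ≤ 2 * (w : ℝ) * a / (q + a) := by positivity
    have hw4 : (q : ℝ) ≤ 2 * w + 413 / 10 := by linarith
    have i5 : 23 / 5 / (w : ℝ) ≤ 94 / 1000 := by rw [div_le_iff₀ (by linarith)]; linarith
    have i6 : 23 / 10 / (y : ℝ) ≤ 94 / 1000 := by rw [div_le_iff₀ (by linarith)]; linarith
    have i7 : (139 / 100 : ℝ) ≤ 2 * (w : ℝ) * a / (q + a) := by
      rw [le_div_iff₀ (by linarith)]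
      nlinarith [mul_nonneg (sub_nonneg.2 ha2) (show (0 : ℝ) ≤ 2 * w - 2 by linarith)]
    linarith

/-- Corollary B -/
theorem one_mem_of_large (h : Sys q P s) (hq : 140 ≤ q) (hne : P.Nonempty) : 1 ∈ P := by
  classical
  set a := P.min' hne with hadef
  have ha : a ∈ P := min'_mem P hne
  have hmin : ∀ p ∈ P, a ≤ p := fun p hp => min'_le P p hp
  have hall : ∀ p ∈ P, a ∣ p := by
    intro y
    induction y using Nat.strong_induction_on with
    | _ y ih =>
      intro hy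
      by_contra hd
      have := lemB h ha hmin hy hd (fun p hp hlt => ih p hlt hp)
      omega
  by_contra h1
  have ha1 : a ≠ 1 := fun e => h1 (e ▸ ha)
  have ha0 := h.pos a ha
  have b1 := budget h ha
  have hd0 : ∑ p ∈ P, (p : ℝ) ≤ q := by
    have e : ((∑ p ∈ P, p : ℕ) : ℝ) ≤ q := Nat.cast_le.2 h.sum_le
    rwa [Nat.cast_sum] at e
  have hs := add_sum_erase P (fun p : ℕ => (p : ℝ)) ha
  have hE : ∀ p ∈ P.erase a, 11 / 160 * (p : ℝ) ≤ ell q p a (s p a) := by
    intro p hp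
    obtain ⟨hp1, hp2⟩ := mem_erase.1 hp
    have hap : a < p := lt_of_le_of_ne (hmin p hp2) hp1.symm
    obtain ⟨g1, g2⟩ := lemB_bad h ha ha1 (hall p hp2)
    obtain ⟨c1, c2⟩ := ell_b h hp2 ha (fun e => absurd (Nat.le_of_dvd ha0 e) (by omega)) g1 g2
    have := lemB_num (x := p) (by exact_mod_cast c1)
    have : (0 : ℝ) ≤ 23 / 10 / p := by positivity
    linarith
  have h2 := sum_le_sum hE
  rw [← mul_sum] at h2
  have h4 : (0 : ℝ) ≤ ∑ p ∈ P.erase a, (p : ℝ) := sum_nonneg (fun i _ => Nat.cast_nonneg i)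
  have h5 : 2 * (a : ℝ) < q := by exact_mod_cast h.half a ha
  have h6 : (0 : ℝ) ≤ a := Nat.cast_nonneg a
  linarith

end Pool.Agent.H63Fr
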