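import Pool.Agent.H63Fr.Budget
import Pool.Agent.H63Fr.ChkDef

namespace Pool.Agent.H63Fr

open Finset

variable {q : ℕ} {P : Finset ℕ} {s : ℕ → ℕ → ℕ}

theorem sum_le_lsum {α : Type} (key : α → ℕ) (w : α → ℕ) (g : ℕ → ℝ) (L : List α) :
    ∀ X : Finset ℕ, (∀ p ∈ X, ∃ c ∈ L, key c = p ∧ g p ≤ w c) →
      ∑ p ∈ X, g p ≤ (lsum w L : ℝ) := by
  classical
  induction L with
  | nil =>
    intro X h
    have : X = ∅ := eq_empty_of_forall_notMem fun p hp => by
      obtain ⟨c, hc, _⟩ := h p hp; simp at hc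
    simp [this, lsum]
  | cons c L ih =>
    intro X h
    rw [← sum_filter_add_sum_filter_not X (fun p => ∃ d ∈ L, key d = p ∧ g p ≤ w d)]
    have h1 := ih (X.filter (fun p => ∃ d ∈ L, key d = p ∧ g p ≤ w d))
      (fun p hp => (mem_filter.1 hp).2)
    have h3 : ∀ p ∈ X.filter (fun p => ¬ ∃ d ∈ L, key d = p ∧ g p ≤ w d),
        p = key c ∧ g p ≤ w c := by
      intro p hp
      obtain ⟨hp1, hp2⟩ := mem_filter.1 hp
      obtain ⟨d, hd, h4, h5⟩ := h p hp1
      rcases List.mem_cons.1 hd with rfl | hd'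
      · exact ⟨h4.symm, h5⟩
      · exact absurd ⟨d, hd', h4, h5⟩ hp2
    have h2 : ∑ p ∈ X.filter (fun p => ¬ ∃ d ∈ L, key d = p ∧ g p ≤ w d), g p ≤ w c := by
      have hsub : X.filter (fun p => ¬ ∃ d ∈ L, key d = p ∧ g p ≤ w d) ⊆ {key c} :=
        fun p hp => mem_singleton.2 (h3 p hp).1
      rcases subset_singleton_iff.1 hsub with he | he
      · rw [he]; simp
      · have hm : key c ∈ X.filter (fun p => ¬ ∃ d ∈ L, key d = p ∧ g p ≤ w d) := by
          rw [he]; simp
        rw [he, sum_singleton]; exact (h3 _ hm).2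
    have : (lsum w (c :: L) : ℝ) = w c + lsum w L := by simp [lsum]
    linarith

theorem div_le_natdiv (a b : ℕ) (hb : 0 < b) : (a : ℝ) / b ≤ ((a / b : ℕ) : ℝ) + 1 := by
  have h := Nat.lt_mul_div_succ a hb
  have hb' : (0 : ℝ) < b := by exact_mod_cast hb
  rw [div_le_iff₀ hb']
  have : (a : ℝ) < b * ((a / b : ℕ) + 1) := by exact_mod_cast h
  linarith

theorem s_eq_dcl (h : Sys q P s) {p y u : ℕ} (hp : p ∈ P) (hy : y ∈ P)
    (hu : okInv q (p, u) = true) : s p y = dcl q y u := by
  have hq : 0 < q := by have := h.half p hp; omega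
  simp only [okInv, frc_eq, Bool.or_eq_true, Nat.beq_eq] at hu
  have e1 : (y : ℤ) * u = q * (y * u / q : ℕ) + (y * u % q : ℕ) := by
    exact_mod_cast (Nat.div_add_mod (y * u) q).symm
  have e2 : (p : ℤ) * u = q * (p * u / q : ℕ) + (p * u % q : ℕ) := by
    exact_mod_cast (Nat.div_add_mod (p * u) q).symm
  have hr := Nat.mod_lt (y * u) hq
  simp only [dcl, frc_eq]
  generalize y * u % q = r at *
  generalize y * u / q = k at *
  generalize p * u / q = j at *
  generalize p * u % q = e at *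
  have key : (q : ℤ) ∣ (r : ℤ) * p - y ∨ (q : ℤ) ∣ (r : ℤ) * p + y := by
    rcases hu with hu | hu
    · left
      refine ⟨y * j - k * p, ?_⟩
      have : (e : ℤ) = 1 := by exact_mod_cast hu
      rw [this] at e2
      linear_combination (-(p : ℤ)) * e1 + (y : ℤ) * e2
    · right
      refine ⟨y * j - k * p + y, ?_⟩
      have : (e : ℤ) + 1 = q := by exact_mod_cast hu
      linear_combination (-(p : ℤ)) * e1 + (y : ℤ) * e2 + (y : ℤ) * this
  cases hb : Nat.ble (2 * r) q
  · have hlt : q < 2 * r := by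
      by_contra hn
      have := Nat.ble_eq_true_of_le (not_lt.1 hn)
      rw [hb] at this; exact absurd this (by simp)
    simp only [cond_false]
    apply h.s_unique hp hy (by omega)
    have ec : ((q - r : ℕ) : ℤ) = q - r := by omega
    rw [ec]
    rcases key with ⟨c, hc⟩ | ⟨c, hc⟩
    · right; exact ⟨p - c, by linear_combination -hc⟩
    · left; exact ⟨p - c, by linear_combination -hc⟩
  · simp only [cond_true]
    exact h.s_unique hp hy (Nat.le_of_ble_eq_true hb) key

theorem fi_ge (h : Sys q P s) {p y u : ℕ} (hp : p ∈ P) (hy : y ∈ P)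
    (hu : okInv q (p, u) = true) : 1000 * F q (s p y) ≤ (Fi q y u : ℝ) := by
  have hq : 0 < q := by have := h.half p hp; omega
  have ht := h.s_pos p hp y hy
  simp only [Fi, frc_eq]
  rw [← s_eq_dcl h hp hy hu]
  have h1 := div_le_natdiv (1000 * q) (s p y) ht
  have h2 := div_le_natdiv (2300 * s p y) q hq
  unfold F
  push_cast at h1 h2 ⊢
  have e1 : (1000 : ℝ) * ((q : ℝ) / s p y + 23 / 10 * s p y / q)
      = 1000 * (q : ℝ) / s p y + 2300 * s p y / q := by ring
  linarith

theorem tr_sound (h : Sys q P s) {y lam rem : ℕ} {S R : List (ℕ × ℕ)} (hy : y ∈ P)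
    (hS : ∀ c ∈ S, okInv q c = true) (hR : ∀ c ∈ R, okInv q c = true)
    (hcov : ∀ p ∈ P, p ∈ S.map Prod.fst ∨ p ∈ R.map Prod.fst)
    (hrem : ∑ p ∈ P.filter (fun p => p ∉ S.map Prod.fst), p ≤ rem)
    (ht : tr q y lam rem S R = true) : False := by
  have hJ := h.J y hy
  unfold tr at ht
  rw [Nat.blt_eq] at ht
  have hA := sum_le_lsum Prod.fst (fun c : ℕ × ℕ => cond (Nat.beq c.1 y) 0 (Fi q y c.2))
    (fun p => 1000 * F q (s p y)) S ((P.erase y).filter (fun p => p ∈ S.map Prod.fst)) (by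
      intro p hp
      obtain ⟨hp1, hp2⟩ := mem_filter.1 hp
      obtain ⟨hne, hpP⟩ := mem_erase.1 hp1
      obtain ⟨c, hc, rfl⟩ := List.mem_map.1 hp2
      refine ⟨c, hc, rfl, ?_⟩
      have : Nat.beq c.1 y = false := by
        cases hb : Nat.beq c.1 y
        · rfl
        · exact absurd (Nat.eq_of_beq_eq_true hb) hne
      simp only [this, cond_false]
      exact fi_ge h hpP hy (hS c hc))
  have hB := sum_le_lsum Prod.fst
    (fun c : ℕ × ℕ => cond (Nat.ble c.1 rem) (Fi q y c.2 - lam * c.1) 0)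
    (fun p => 1000 * F q (s p y) - lam * p) R
    ((P.erase y).filter (fun p => p ∉ S.map Prod.fst)) (by
      intro p hp
      obtain ⟨hp1, hp2⟩ := mem_filter.1 hp
      obtain ⟨_, hpP⟩ := mem_erase.1 hp1
      obtain ⟨c, hc, rfl⟩ := List.mem_map.1 ((hcov p hpP).resolve_left hp2)
      refine ⟨c, hc, rfl, ?_⟩
      have hle : c.1 ≤ rem := le_trans (single_le_sum (f := fun p => p)
        (fun _ _ => Nat.zero_le _) (mem_filter.2 ⟨hpP, hp2⟩)) hrem
      simp only [Nat.ble_eq_true_of_le hle, cond_true]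
      have h1 := fi_ge h hpP hy (hR c hc)
      have h2 : Fi q y c.2 ≤ (Fi q y c.2 - lam * c.1) + lam * c.1 := by omega
      have h3 : (Fi q y c.2 : ℝ) ≤ ((Fi q y c.2 - lam * c.1 : ℕ) : ℝ) + lam * c.1 := by
        exact_mod_cast h2
      linarith)
  have hC : ∑ p ∈ (P.erase y).filter (fun p => p ∉ S.map Prod.fst), (p : ℝ) ≤ rem := by
    have : ∑ p ∈ (P.erase y).filter (fun p => p ∉ S.map Prod.fst), p ≤ rem :=
      le_trans (sum_le_sum_of_subset (filter_subset_filter _ (erase_subset _ _))) hrem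
    rw [← Nat.cast_sum]
    exact Nat.cast_le.2 this
  rw [sum_sub_distrib, ← mul_sum, ← mul_sum] at hB
  rw [← mul_sum] at hA
  rw [← sum_filter_add_sum_filter_not (P.erase y) (fun p => p ∈ S.map Prod.fst)] at hJ
  have ht' : ((lam * rem + lsum (fun c : ℕ × ℕ => cond (Nat.beq c.1 y) 0 (Fi q y c.2)) S
      + lsum (fun c : ℕ × ℕ => cond (Nat.ble c.1 rem) (Fi q y c.2 - lam * c.1) 0) R : ℕ) : ℝ)
      < ((1000 * q + 1600 / q : ℕ) : ℝ) := by exact_mod_cast ht
  have hd : ((1600 / q : ℕ) : ℝ) ≤ (1600 : ℝ) / q := by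
    have := Nat.cast_div_le (α := ℝ) (m := 1600) (n := q)
    exact_mod_cast this
  have e8 : (1000 : ℝ) * (8 / (5 * q)) = 1600 / q := by
    rw [← div_div]; ring
  have hl : (lam : ℝ) * ∑ p ∈ (P.erase y).filter (fun p => p ∉ S.map Prod.fst), (p : ℝ)
      ≤ lam * rem := mul_le_mul_of_nonneg_left hC (Nat.cast_nonneg _)
  rw [Nat.cast_add, Nat.cast_add, Nat.cast_add, Nat.cast_mul, Nat.cast_mul] at ht'
  push_cast at ht'
  linarith

theorem chainL_toFinset (a m : ℕ) : (chainL a m).toFinset = chain a m := by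
  induction m with
  | zero => ext p; simp [chainL, mem_chain]
  | succ m ih =>
    ext p
    simp only [chainL, List.toFinset_cons, mem_insert, ih, mem_chain]
    constructor
    · rintro (rfl | ⟨i, hi, rfl⟩)
      · exact ⟨m + 1, le_refl _, rfl⟩
      · exact ⟨i, by omega, rfl⟩
    · rintro ⟨i, hi, rfl⟩
      rcases hi.lt_or_eq with hlt | rfl
      · exact Or.inr ⟨i, by omega, rfl⟩
      · exact Or.inl rfl

theorem go_sound (h : Sys q P s) {a : ℕ} (ha : a ∈ P) (R : List (ℕ × ℕ)) :
    ∀ (S : List (ℕ × ℕ)) (rem : ℕ), (∀ c ∈ S, okInv q c = true) → (∀ c ∈ R, okInv q c = true) →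
      (∀ c ∈ S, c.1 ∈ P) → (∀ p ∈ P, p ∈ S.map Prod.fst ∨ p ∈ R.map Prod.fst) →
      ∑ p ∈ P.filter (fun p => p ∉ S.map Prod.fst), p ≤ rem → go q a R S rem = true →
      (∃ a m, P = chain a m) ∨ Goal q P := by
  induction R with
  | nil =>
    intro S rem hS hR hsub hcov hrem hgo
    have hall : ∀ p ∈ P, p ∈ S.map Prod.fst := fun p hp =>
      (hcov p hp).resolve_right (by simp)
    have hP : P = (S.map Prod.fst).toFinset := by
      ext p
      rw [List.mem_toFinset]
      refine ⟨hall p, fun hp => ?_⟩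
      obtain ⟨c, hc, rfl⟩ := List.mem_map.1 hp
      exact hsub c hc
    simp only [go, leaf, Bool.or_eq_true, Bool.and_eq_true, decide_eq_true_eq,
      List.any_eq_true] at hgo
    rcases hgo with (⟨c, hc, ht⟩ | hch) | ⟨h1, h2⟩
    · exfalso
      refine tr_sound h (hsub c hc) hS hR hcov ?_ ht
      rw [filter_false_of_mem (fun p hp hn => hn (hall p hp))]
      simp
    · exact Or.inl ⟨a, _, by rw [hP, hch, chainL_toFinset]⟩
    · exact Or.inr ⟨_, h1, by rw [hP, h2, List.toFinset_cons, chainL_toFinset]⟩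
  | cons c R ih =>
    intro S rem hS hR hsub hcov hrem hgo
    have hR' : ∀ d ∈ R, okInv q d = true := fun d hd => hR d (List.mem_cons_of_mem _ hd)
    simp only [go, frc_eq, Bool.and_eq_true] at hgo
    obtain ⟨h1, h2⟩ := hgo
    by_cases hc : c.1 ∈ P ∧ c.1 ∉ S.map Prod.fst
    · have hm : c.1 ∈ P.filter (fun p => p ∉ S.map Prod.fst) := mem_filter.2 hc
      have hsplit := add_sum_erase _ (fun p => p) hm
      have hle : c.1 ≤ rem := by omega
      rw [Nat.ble_eq_true_of_le hle, cond_true, Bool.or_eq_true] at h1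
      have hS' : ∀ d ∈ c :: S, okInv q d = true := fun d hd => by
        rcases List.mem_cons.1 hd with rfl | hd
        · exact hR _ List.mem_cons_self
        · exact hS d hd
      have hsub' : ∀ d ∈ c :: S, d.1 ∈ P := fun d hd => by
        rcases List.mem_cons.1 hd with rfl | hd
        · exact hc.1
        · exact hsub d hd
      have hcov' : ∀ p ∈ P, p ∈ (c :: S).map Prod.fst ∨ p ∈ R.map Prod.fst := fun p hp => by
        have := hcov p hp
        simp only [List.map_cons, List.mem_cons] at this ⊢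
        tauto
      have hrem' : ∑ p ∈ P.filter (fun p => p ∉ (c :: S).map Prod.fst), p ≤ rem - c.1 := by
        have e : P.filter (fun p => p ∉ (c :: S).map Prod.fst)
            = (P.filter (fun p => p ∉ S.map Prod.fst)).erase c.1 := by
          ext p
          simp only [List.map_cons, List.mem_cons, mem_filter, mem_erase]
          tauto
        rw [e]; omega
      rcases h1 with h1 | h1
      · exfalso
        simp only [prune, frc_eq, Bool.or_eq_true] at h1
        rcases h1 with h1 | h1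
        · exact tr_sound h hc.1 hS' hR' hcov' hrem' h1
        · exact tr_sound h ha hS' hR' hcov' hrem' h1
      · exact ih _ _ hS' hR' hsub' hcov' hrem' h1
    · refine ih S rem hS hR' hsub (fun p hp => ?_) hrem h2
      have := hcov p hp
      simp only [List.map_cons, List.mem_cons] at this
      rcases this with h3 | rfl | h3
      · exact Or.inl h3
      · left; by_contra hn; exact hc ⟨hp, hn⟩
      · exact Or.inr h3

theorem mkP_spec (L : List ℕ) : ∀ k : List (ℕ × ℕ) → Bool, mkP q L k = true →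
    ∃ R, k R = true ∧ ∀ p ∈ L, Nat.gcd p q = 1 → p ∈ R.map Prod.fst := by
  induction L with
  | nil => intro k hk; exact ⟨[], hk, by simp⟩
  | cons p L ih =>
    intro k hk
    obtain ⟨R, h1, h2⟩ := ih _ hk
    simp only [frc_eq] at h1
    cases hb : Nat.beq (Nat.gcd p q) 1
    · rw [hb, cond_false] at h1
      refine ⟨R, h1, fun x hx hg => ?_⟩
      rcases List.mem_cons.1 hx with rfl | hx
      · rw [hg] at hb; exact absurd hb (by simp)
      · exact h2 x hx hg
    · rw [hb, cond_true] at h1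
      refine ⟨_, h1, fun x hx hg => ?_⟩
      simp only [List.map_cons, List.mem_cons]
      rcases List.mem_cons.1 hx with rfl | hx
      · exact Or.inl rfl
      · exact Or.inr (h2 x hx hg)

theorem scan_spec (a n : ℕ) : ∀ (acc : List ℕ) (k : List ℕ → Bool), scan q a n acc k = true →
    ∃ G, k G = true ∧ (∀ p ∈ acc, p ∈ G) ∧
      ∀ p, a < p → p ≤ a + n → goodB q a p = true → p ∈ G := by
  induction n with
  | zero => intro acc k hk; exact ⟨acc, hk, fun _ hp => hp, fun p h1 h2 => by omega⟩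
  | succ n ih =>
    intro acc k hk
    simp only [scan, frc_eq] at hk
    cases hb : goodB q a (a + n + 1)
    · rw [hb, cond_false] at hk
      obtain ⟨G, h1, h2, h3⟩ := ih _ _ hk
      refine ⟨G, h1, h2, fun p hp1 hp2 hg => ?_⟩
      rcases (show p ≤ a + n ∨ p = a + n + 1 by omega) with h4 | rfl
      · exact h3 p hp1 h4 hg
      · rw [hg] at hb; exact absurd hb (by simp)
    · rw [hb, cond_true] at hk
      obtain ⟨G, h1, h2, h3⟩ := ih _ _ hk
      refine ⟨G, h1, fun p hp => h2 p (List.mem_cons_of_mem _ hp), fun p hp1 hp2 hg => ?_⟩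
      rcases (show p ≤ a + n ∨ p = a + n + 1 by omega) with h4 | rfl
      · exact h3 p hp1 h4 hg
      · exact h2 _ List.mem_cons_self

theorem bad_bound (h : Sys q P s) {a : ℕ} (ha : a ∈ P) (hmin : ∀ p ∈ P, a ≤ p) {G : List ℕ}
    (hG : ∀ p ∈ P, p ≠ a → goodB q a p = true → p ∈ G) {p : ℕ} (hp : p ∈ P) (hne : p ≠ a)
    (hb : ¬ goodB q a p = true) : 500 * p ≤ lsum (fun p => 2300 / p + 1) G + 1150 := by
  have hnd : ∀ x ∈ P, x ≠ a → ¬ x ∣ a := fun x hx hxa hd => by
    have := Nat.le_of_dvd (h.pos a ha) hd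
    have := hmin x hx
    omega
  have hbad : ∀ x ∈ P, x ≠ a → ¬ goodB q a x = true →
      (x : ℝ) / 2 - 23 / 20 ≤ ell q x a (s x a) ∧ 4 ≤ x := fun x hx hxa hxb => by
    simp only [goodB, Bool.or_eq_true, Nat.beq_eq, not_or] at hxb
    obtain ⟨h4, h5⟩ := ell_b h hx ha (hnd x hx hxa)
      (fun hd => hxb.1 (Nat.mod_eq_zero_of_dvd hd)) (fun hd => hxb.2 (Nat.mod_eq_zero_of_dvd hd))
    refine ⟨?_, h4⟩
    have h4' : (4 : ℝ) ≤ x := by exact_mod_cast h4
    have : 23 / 5 / (x : ℝ) ≤ 23 / 20 := by rw [div_le_iff₀ (by linarith)]; linarith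
    linarith
  have hbud := budget h ha
  rw [← sum_filter_add_sum_filter_not (P.erase a) (fun x => goodB q a x = true)] at hbud
  have hd : ∑ x ∈ P, (x : ℝ) ≤ q := by
    rw [← Nat.cast_sum]
    exact Nat.cast_le.2 h.sum_le
  have h1 := sum_le_lsum (fun x : ℕ => x) (fun x => 2300 / x + 1)
    (fun x => -1000 * ell q x a (s x a)) G
    ((P.erase a).filter (fun x => goodB q a x = true)) (by
      intro x hx
      obtain ⟨hx1, hx2⟩ := mem_filter.1 hx
      obtain ⟨hxa, hxP⟩ := mem_erase.1 hx1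
      refine ⟨x, hG x hxP hxa hx2, rfl, ?_⟩
      have h2 := ell_a h hxP ha (hnd x hxP hxa)
      have h3 := div_le_natdiv 2300 x (h.pos x hxP)
      have e : (1000 : ℝ) * (23 / 10 / x) = (2300 : ℕ) / x := by push_cast; ring
      rw [Nat.cast_add, Nat.cast_one]
      linarith)
  rw [← mul_sum] at h1
  have h2 : ell q p a (s p a)
      ≤ ∑ x ∈ (P.erase a).filter (fun x => ¬ goodB q a x = true), ell q x a (s x a) := by
    refine single_le_sum (f := fun x => ell q x a (s x a)) (fun x hx => ?_)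
      (mem_filter.2 ⟨mem_erase.2 ⟨hne, hp⟩, hb⟩)
    obtain ⟨hx1, hx2⟩ := mem_filter.1 hx
    obtain ⟨hxa, hxP⟩ := mem_erase.1 hx1
    obtain ⟨h4, h5⟩ := hbad x hxP hxa hx2
    have h5' : (4 : ℝ) ≤ x := by exact_mod_cast h5
    linarith
  have h3 := (hbad p hp hne hb).1
  have : (500 : ℝ) * p ≤ (lsum (fun p => 2300 / p + 1) G : ℝ) + 1150 := by linarith
  exact_mod_cast this

theorem check_sound (h : Sys q P s) {a : ℕ} (ha : a ∈ P) (hmin : ∀ p ∈ P, a ≤ p)
    (hc : check q a = true) : (∃ a m, P = chain a m) ∨ Goal q P := by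
  have hg : Nat.gcd a q = 1 := h.cop a ha
  unfold check at hc
  rw [hg, show Nat.beq 1 1 = true from rfl, cond_true] at hc
  obtain ⟨G, h1, _, hG⟩ := scan_spec _ _ _ _ hc
  simp only [frc_eq] at h1
  obtain ⟨R, h2, hR⟩ := mkP_spec _ _ h1
  simp only [Bool.and_eq_true, Bool.or_eq_true, List.all_eq_true] at h2
  obtain ⟨⟨h3, h4⟩, h5⟩ := h2
  have hG' : ∀ p ∈ P, p ≠ a → goodB q a p = true → p ∈ G := fun p hp hne hgd => by
    have := h.half p hp
    have := hmin p hp
    exact hG p (by omega) (by omega) hgd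
  have hS : ∀ c ∈ [(a, invS q a a q)], okInv q c = true := by
    intro c hc; rw [List.mem_singleton.1 hc]; exact h3
  have hsub : ∀ c ∈ [(a, invS q a a q)], c.1 ∈ P := by
    intro c hc; rw [List.mem_singleton.1 hc]; exact ha
  have hcov : ∀ p ∈ P, p ∈ [(a, invS q a a q)].map Prod.fst ∨ p ∈ R.map Prod.fst := by
    intro p hp
    by_cases hne : p = a
    · left; simp [hne]
    · right
      refine hR p ?_ (h.cop p hp)
      have h6 := h.half p hp
      have h7 := hmin p hp
      unfold cand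
      rw [List.mem_append, List.mem_range'_1, List.mem_filter, Nat.blt_eq]
      by_cases hb : p ≤ (lsum (fun p => 2300 / p + 1) G + 1150) / 500
      · left; omega
      · right
        refine ⟨hG' p hp hne ?_, by omega⟩
        by_contra hgd
        have := bad_bound h ha hmin hG' hp hne hgd
        omega
  have hrem : ∑ p ∈ P.filter (fun p => p ∉ [(a, invS q a a q)].map Prod.fst), p ≤ q - a := by
    have e : P.filter (fun p => p ∉ [(a, invS q a a q)].map Prod.fst) = P.erase a := by
      ext p; simp [and_comm]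
    have := add_sum_erase _ (fun p => p) ha
    have := h.sum_le
    rw [e]; omega
  rcases h5 with h5 | h5
  · exfalso
    simp only [prune, frc_eq, Bool.or_eq_true] at h5
    rcases h5 with h5 | h5 <;> exact tr_sound h ha hS h4 hcov hrem h5
  · exact go_sound h ha R _ _ hS h4 hsub hcov hrem h5

theorem checkA_spec (n : ℕ) (hc : checkA q n = true) :
    ∀ a, 1 ≤ a → a ≤ n → check q a = true := by
  induction n with
  | zero => intro a h1 h2; omega
  | succ n ih =>
    simp only [checkA, Bool.and_eq_true] at hc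
    intro a h1 h2
    rcases h2.lt_or_eq with h3 | rfl
    · exact ih hc.2 a h1 (by omega)
    · exact hc.1

theorem checkAll_spec (lo n : ℕ) (hc : checkAll lo n = true) :
    ∀ q, lo ≤ q → q < lo + n → checkA q ((q - 1) / 2) = true := by
  induction n with
  | zero => intro a h1 h2; omega
  | succ n ih =>
    simp only [checkAll, frc_eq, Bool.and_eq_true] at hc
    intro x h1 h2
    rcases (show x < lo + n ∨ x = lo + n by omega) with h3 | rfl
    · exact ih hc.2 x h1 h3
    · exact hc.1

theorem checkOne_spec (lo n : ℕ) (hc : checkOne lo n = true) :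
    ∀ q, lo ≤ q → q < lo + n → check q 1 = true := by
  induction n with
  | zero => intro a h1 h2; omega
  | succ n ih =>
    simp only [checkOne, frc_eq, Bool.and_eq_true] at hc
    intro x h1 h2
    rcases (show x < lo + n ∨ x = lo + n by omega) with h3 | rfl
    · exact ih hc.2 x h1 h3
    · exact hc.1

end Pool.Agent.H63Fr
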