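import Pool.Agent.H63Fr.D0
import Pool.Agent.H63Fr.D1
import Pool.Agent.H63Fr.D2
import Pool.Agent.H63Fr.D3
import Pool.Agent.H63Fr.D4
import Pool.Agent.H63Fr.D5
import Pool.Agent.H63Fr.D6
import Pool.Agent.H63Fr.D7
import Pool.Agent.H63Fr.Sound
import Pool.Agent.H63Fr.LemB

namespace Pool.Agent.H63Fr

open Finset

variable {q : ℕ} {P : Finset ℕ} {s : ℕ → ℕ → ℕ}

theorem small_all (h1 : 3 ≤ q) (h2 : q < 140) : checkA q ((q - 1) / 2) = true := by
  rcases Nat.lt_or_ge q 43 with h | h1
  · exact checkAll_spec _ _ dataAll_3 q h1 h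
  rcases Nat.lt_or_ge q 80 with h | h1
  · exact checkAll_spec _ _ dataAll_43 q h1 h
  rcases Nat.lt_or_ge q 90 with h | h1
  · exact checkAll_spec _ _ dataAll_80 q h1 h
  rcases Nat.lt_or_ge q 100 with h | h1
  · exact checkAll_spec _ _ dataAll_90 q h1 h
  rcases Nat.lt_or_ge q 110 with h | h1
  · exact checkAll_spec _ _ dataAll_100 q h1 h
  rcases Nat.lt_or_ge q 120 with h | h1
  · exact checkAll_spec _ _ dataAll_110 q h1 h
  rcases Nat.lt_or_ge q 130 with h | h1
  · exact checkAll_spec _ _ dataAll_120 q h1 h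
  exact checkAll_spec _ _ dataAll_130 q h1 h2

theorem small_one (h1 : 140 ≤ q) (h2 : q < 1296) : check q 1 = true := by
  rcases Nat.lt_or_ge q 192 with h | h1
  · exact checkOne_spec _ _ dataOne_140 q h1 h
  rcases Nat.lt_or_ge q 244 with h | h1
  · exact checkOne_spec _ _ dataOne_192 q h1 h
  rcases Nat.lt_or_ge q 296 with h | h1
  · exact checkOne_spec _ _ dataOne_244 q h1 h
  rcases Nat.lt_or_ge q 348 with h | h1
  · exact checkOne_spec _ _ dataOne_296 q h1 h
  rcases Nat.lt_or_ge q 400 with h | h1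
  · exact checkOne_spec _ _ dataOne_348 q h1 h
  rcases Nat.lt_or_ge q 444 with h | h1
  · exact checkOne_spec _ _ dataOne_400 q h1 h
  rcases Nat.lt_or_ge q 488 with h | h1
  · exact checkOne_spec _ _ dataOne_444 q h1 h
  rcases Nat.lt_or_ge q 532 with h | h1
  · exact checkOne_spec _ _ dataOne_488 q h1 h
  rcases Nat.lt_or_ge q 576 with h | h1
  · exact checkOne_spec _ _ dataOne_532 q h1 h
  rcases Nat.lt_or_ge q 620 with h | h1
  · exact checkOne_spec _ _ dataOne_576 q h1 h
  rcases Nat.lt_or_ge q 660 with h | h1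
  · exact checkOne_spec _ _ dataOne_620 q h1 h
  rcases Nat.lt_or_ge q 700 with h | h1
  · exact checkOne_spec _ _ dataOne_660 q h1 h
  rcases Nat.lt_or_ge q 740 with h | h1
  · exact checkOne_spec _ _ dataOne_700 q h1 h
  rcases Nat.lt_or_ge q 780 with h | h1
  · exact checkOne_spec _ _ dataOne_740 q h1 h
  rcases Nat.lt_or_ge q 820 with h | h1
  · exact checkOne_spec _ _ dataOne_780 q h1 h
  rcases Nat.lt_or_ge q 854 with h | h1
  · exact checkOne_spec _ _ dataOne_820 q h1 h
  rcases Nat.lt_or_ge q 888 with h | h1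
  · exact checkOne_spec _ _ dataOne_854 q h1 h
  rcases Nat.lt_or_ge q 922 with h | h1
  · exact checkOne_spec _ _ dataOne_888 q h1 h
  rcases Nat.lt_or_ge q 956 with h | h1
  · exact checkOne_spec _ _ dataOne_922 q h1 h
  rcases Nat.lt_or_ge q 990 with h | h1
  · exact checkOne_spec _ _ dataOne_956 q h1 h
  rcases Nat.lt_or_ge q 1022 with h | h1
  · exact checkOne_spec _ _ dataOne_990 q h1 h
  rcases Nat.lt_or_ge q 1054 with h | h1
  · exact checkOne_spec _ _ dataOne_1022 q h1 h
  rcases Nat.lt_or_ge q 1086 with h | h1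
  · exact checkOne_spec _ _ dataOne_1054 q h1 h
  rcases Nat.lt_or_ge q 1118 with h | h1
  · exact checkOne_spec _ _ dataOne_1086 q h1 h
  rcases Nat.lt_or_ge q 1150 with h | h1
  · exact checkOne_spec _ _ dataOne_1118 q h1 h
  rcases Nat.lt_or_ge q 1180 with h | h1
  · exact checkOne_spec _ _ dataOne_1150 q h1 h
  rcases Nat.lt_or_ge q 1210 with h | h1
  · exact checkOne_spec _ _ dataOne_1180 q h1 h
  rcases Nat.lt_or_ge q 1240 with h | h1
  · exact checkOne_spec _ _ dataOne_1210 q h1 h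
  rcases Nat.lt_or_ge q 1270 with h | h1
  · exact checkOne_spec _ _ dataOne_1240 q h1 h
  exact checkOne_spec _ _ dataOne_1270 q h1 h2

theorem small_case (h : Sys q P s) (hq : q < 1296) (hne : P.Nonempty) :
    (∃ a m, P = chain a m) ∨ Goal q P := by
  rcases Nat.lt_or_ge q 140 with h1 | h1
  · have ha := P.min'_mem hne
    have h2 := h.pos _ ha
    have h3 := h.half _ ha
    exact check_sound h ha (fun p hp => P.min'_le p hp)
      (checkA_spec _ (small_all (by omega) h1) _ h2 (by omega))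
  · exact check_sound h (one_mem_of_large h h1 hne) (fun p hp => h.pos p hp) (small_one h1 hq)

end Pool.Agent.H63Fr
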