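import Pool.Agent.H63Fr.Trig
import Pool.Agent.H63Fr.Small
import Pool.Agent.H63Fr.MainB

namespace Pool.Agent.H63Fr

open Finset

variable {q : ℕ} {P : Finset ℕ} {s : ℕ → ℕ → ℕ}

theorem thmR (h : Sys q P s) (hne : P.Nonempty) : (∃ a m, P = chain a m) ∨ Goal q P := by
  rcases Nat.lt_or_ge q 1296 with hq | hq
  · exact small_case h hq hne
  · exact large_case h hq hne

/-- congruent up to sign -/
def finPM (q : ℕ) (a b : ℤ) : Prop := (q : ℤ) ∣ a - b ∨ (q : ℤ) ∣ a + b

theorem finPM_refl (a : ℤ) : finPM q a a := Or.inl (by simp)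

theorem finPM_mul {a b c d : ℤ} (h : finPM q a b) (k : finPM q c d) : finPM q (a * c) (b * d) := by
  rcases h with h | h <;> rcases k with k | k
  · exact Or.inl (by
      rw [show a * c - b * d = (a - b) * c + b * (c - d) by ring]
      exact dvd_add (h.mul_right _) (k.mul_left _))
  · exact Or.inr (by
      rw [show a * c + b * d = (a - b) * c + b * (c + d) by ring]
      exact dvd_add (h.mul_right _) (k.mul_left _))
  · exact Or.inr (by
      rw [show a * c + b * d = (a + b) * c - b * (c - d) by ring]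
      exact dvd_sub (h.mul_right _) (k.mul_left _))
  · exact Or.inl (by
      rw [show a * c - b * d = (a + b) * c - b * (c + d) by ring]
      exact dvd_sub (h.mul_right _) (k.mul_left _))

theorem fin_abs (hq : 0 < q) {a b : ℤ} (h : finPM q a b) :
    |Real.sin (Real.pi * a / q)| = |Real.sin (Real.pi * b / q)| := by
  have hq' : (q : ℝ) ≠ 0 := by positivity
  rcases h with ⟨c, h⟩ | ⟨c, h⟩
  · have e : (a : ℝ) = b + q * c := by exact_mod_cast (by linarith : a = b + q * c)
    rw [show Real.pi * a / q = Real.pi * b / q + c * Real.pi by rw [e]; field_simp,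
      Real.sin_add_int_mul_pi, abs_mul, abs_zpow]
    simp
  · have e : (a : ℝ) = -b + q * c := by exact_mod_cast (by linarith : a = -b + q * c)
    rw [show Real.pi * a / q = -(Real.pi * b / q) + c * Real.pi by rw [e]; field_simp,
      Real.sin_add_int_mul_pi, abs_mul, abs_zpow]
    simp

theorem fin_abs' (hq : 0 < q) {a b c d : ℕ} (h : finPM q a b) (k : finPM q c d) :
    |Real.sin (Real.pi * ((a : ℝ) * c) / q)| = |Real.sin (Real.pi * ((b : ℝ) * d) / q)| := by
  simpa using fin_abs hq (finPM_mul h k)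

theorem fin_min (hq : 0 < q) (n : ℕ) : finPM q (min (n % q) (q - n % q) : ℕ) n := by
  have h1 := Nat.mod_lt n hq
  have h2 : (n : ℤ) = q * (n / q : ℕ) + (n % q : ℕ) := by exact_mod_cast (Nat.div_add_mod n q).symm
  rcases le_total (n % q) (q - n % q) with h | h
  · rw [min_eq_left h]
    exact Or.inl ⟨-(n / q : ℕ), by linarith⟩
  · rw [min_eq_right h, Nat.cast_sub h1.le]
    exact Or.inr ⟨(n / q : ℕ) + 1, by linarith⟩

theorem fin_sin (hq : 0 < q) (y v : ℕ) : |Real.sin (Real.pi * ((y : ℝ) * v) / q)| =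
    Real.sin (Real.pi * (min (y * v % q) (q - y * v % q) : ℕ) / q) := by
  have h := fin_abs hq (fin_min hq (y * v))
  have hq' : (0 : ℝ) < q := by exact_mod_cast hq
  have h1 : ((min (y * v % q) (q - y * v % q) : ℕ) : ℝ) ≤ q := by exact_mod_cast (by omega)
  rw [Int.cast_natCast, Int.cast_natCast, Nat.cast_mul] at h
  rw [← h, abs_of_nonneg (Real.sin_nonneg_of_nonneg_of_le_pi (by positivity) ?_)]
  rw [div_le_iff₀ hq']
  exact mul_le_mul_of_nonneg_left h1 Real.pi_pos.le

theorem fin_goal (h : Goal q P) (hn : 3 ≤ P.card) : ∃ m : ℕ, 1 ≤ m ∧ P.card = m + 2 ∧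
    q + 1 = 4 * 2 ^ m ∧ P = insert (2 * 2 ^ m - 1) ((range (m + 1)).image fun i => 2 ^ i) ∧
    ∀ x ∈ (range (m + 1)).image fun i => 2 ^ i, x < 2 * 2 ^ m - 1 := by
  obtain ⟨m, h1, h2⟩ := h
  simp only [chain, mul_one] at h2
  have hm : 1 ≤ m := by
    by_contra c
    obtain rfl : m = 0 := by omega
    simp [h2] at hn
  have h3 : ∀ x ∈ (range (m + 1)).image fun i => 2 ^ i, x < 2 * 2 ^ m - 1 := fun x hx => by
    obtain ⟨i, hi, rfl⟩ := mem_image.1 hx
    have := Nat.pow_le_pow_right two_pos (Nat.lt_succ_iff.1 (mem_range.1 hi))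
    have := Nat.pow_le_pow_right two_pos hm
    omega
  refine ⟨m, hm, ?_, h1, h2, h3⟩
  rw [h2, card_insert_of_notMem fun c => lt_irrefl _ (h3 _ c),
    card_image_of_injective _ (Nat.pow_right_injective le_rfl), card_range]

/-- all letters below q/2 -/
theorem half_case (u : ℕ → ℕ) (hne : P.Nonempty) (hpos : ∀ p ∈ P, 0 < p)
    (hhalf : ∀ p ∈ P, 2 * p < q) (hsum : ∑ p ∈ P, p ≤ q) (hu : ∀ p ∈ P, p * u p ≡ 1 [MOD q])
    (hineq : ∀ y ∈ P, 2 / Real.sin (Real.pi / q)
      ≤ ∑ p ∈ P, 1 / |Real.sin (Real.pi * ((y : ℝ) * u p) / q)|) : Goal q P := by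
  obtain ⟨p0, hp0⟩ := id hne
  have hq : 3 ≤ q := by
    have := hpos p0 hp0
    have := hhalf p0 hp0
    omega
  have hq0 : 0 < q := by omega
  obtain ⟨s, hs⟩ : ∃ s : ℕ → ℕ → ℕ, ∀ p y, s p y = min (y * u p % q) (q - y * u p % q) :=
    ⟨_, fun _ _ => rfl⟩
  have cop : ∀ p ∈ P, Nat.Coprime p q := fun p hp => Nat.coprime_of_mul_modEq_one _ (hu p hp)
  have spos : ∀ p ∈ P, ∀ y ∈ P, 0 < s p y := fun p hp y hy => by
    have h1 := Nat.mod_lt (y * u p) hq0
    have h2 : y * u p % q ≠ 0 := fun c => by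
      have h3 : Nat.Coprime (y * u p) q := Nat.Coprime.mul_left (cop y hy)
        (Nat.coprime_of_mul_modEq_one p (by rw [mul_comm]; exact hu p hp))
      have := h3.symm.eq_one_of_dvd (Nat.dvd_of_mod_eq_zero c)
      omega
    rw [hs]
    omega
  have shalf : ∀ p y, 2 * s p y ≤ q := fun p y => by
    have h1 := Nat.mod_lt (y * u p) hq0
    rw [hs]
    omega
  have E : ∀ y ∈ P, 1 / Real.sin (Real.pi / q) ≤
      ∑ p ∈ P.erase y, 1 / Real.sin (Real.pi * s p y / q) := fun y hy => by
    have h1 := hineq y hy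
    have h2 : s y y = 1 := by
      have h3 : y * u y % q = 1 := Eq.trans (hu y hy) (Nat.mod_eq_of_lt (by omega))
      rw [hs, h3]
      omega
    simp only [fin_sin hq0, ← hs] at h1
    rw [← add_sum_erase _ _ hy, h2, Nat.cast_one, mul_one, div_eq_mul_one_div] at h1
    linarith
  have sys : Sys q P s := by
    refine ⟨hpos, cop, hhalf, hsum, spos, fun p _ y _ => shalf p y, fun p hp y _ => ?_,
      fun y hy => ?_⟩
    · have h1 := finPM_mul (fin_min hq0 (y * u p)) (finPM_refl (p : ℤ))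
      have h2 : (q : ℤ) ∣ (y * u p : ℕ) * (p : ℤ) - y := by
        have := (Nat.modEq_iff_dvd.1 (hu p hp).symm).mul_left y
        rwa [show (y : ℤ) * ((p * u p : ℕ) - (1 : ℕ)) = (y * u p : ℕ) * (p : ℤ) - y by
          push_cast; ring] at this
      rw [← hs] at h1
      rcases h1 with h1 | h1
      · exact Or.inl (by simpa using dvd_add h1 h2)
      · refine Or.inr ?_
        have := dvd_sub h1 h2
        rwa [show ∀ a b c : ℤ, a + b - (b - c) = a + c from fun _ _ _ => by ring] at this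
    · have h1 := mul_le_mul_of_nonneg_left (E y hy) Real.pi_pos.le
      rw [mul_sum, mul_one_div] at h1
      refine (le_pi_div_sin (by omega)).trans (h1.trans (sum_le_sum fun p hp => ?_))
      rw [mul_one_div]
      exact pi_div_sin_le (spos p (mem_of_mem_erase hp) y hy) (shalf p y)
  refine (thmR sys hne).resolve_left ?_
  rintro ⟨a, m, rfl⟩
  have hy : 2 ^ m * a ∈ chain a m := mem_chain.2 ⟨m, le_rfl, rfl⟩
  have ha : 0 < a := Nat.pos_of_mul_pos_left (hpos _ hy)
  have hm : 2 * 2 ^ m ≤ q := by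
    have := hhalf _ hy
    have := Nat.le_mul_of_pos_right (2 ^ m) ha
    omega
  have inj : ∀ i j : ℕ, 2 ^ i * a = 2 ^ j * a → i = j := fun i j e =>
    Nat.pow_right_injective le_rfl (Nat.eq_of_mul_eq_mul_right ha e)
  have e : (chain a m).erase (2 ^ m * a) = (range m).image fun j => 2 ^ (m - (j + 1)) * a := by
    ext p
    simp only [mem_erase, mem_chain, mem_image, mem_range]
    constructor
    · rintro ⟨h1, i, hi, rfl⟩
      have : i ≠ m := fun c => h1 (by rw [c])
      exact ⟨m - (i + 1), by omega, by rw [show m - (m - (i + 1) + 1) = i by omega]⟩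
    · rintro ⟨j, hj, rfl⟩
      exact ⟨fun c => by have := inj _ _ c; omega, _, by omega, rfl⟩
  have h1 := E _ hy
  rw [e, sum_image fun i hi j hj c => by
    have := inj _ _ c
    have := mem_range.1 (mem_coe.1 hi)
    have := mem_range.1 (mem_coe.1 hj)
    omega] at h1
  refine absurd (h1.trans_eq (sum_congr rfl fun j hj => ?_)) (not_le.2 (chain_sum_lt hm))
  have hj' := mem_range.1 hj
  have h2 : 2 ^ (j + 1) ≤ 2 ^ m := Nat.pow_le_pow_right two_pos hj'
  rw [sys.s_unique (t := 2 ^ (j + 1)) (mem_chain.2 ⟨_, by omega, rfl⟩) hy (by omega) (Or.inl ?_)]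
  have h3 : 2 ^ (j + 1) * (2 ^ (m - (j + 1)) * a) = 2 ^ m * a := by
    rw [← mul_assoc, ← pow_add, Nat.add_sub_cancel' hj']
  rw [← Nat.cast_mul, h3, sub_self]
  exact dvd_zero _

theorem final (q : ℕ) (P : Finset ℕ) (u : ℕ → ℕ) (hn : 3 ≤ P.card) (hpos : ∀ p ∈ P, 0 < p)
    (hsum : ∑ p ∈ P, p ≤ q) (hu : ∀ p ∈ P, p * u p ≡ 1 [MOD q])
    (hineq : ∀ y ∈ P, 2 / Real.sin (Real.pi / q)
      ≤ ∑ p ∈ P, 1 / |Real.sin (Real.pi * ((y : ℝ) * u p) / q)|) :
    q = 2 ^ P.card - 1 ∧ (P = (range P.card).image (fun i => 2 ^ i) ∨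
      P = insert (2 ^ (P.card - 1) - 1) ((range (P.card - 1)).image (fun i => 2 ^ i))) := by
  by_cases hall : ∀ p ∈ P, 2 * p < q
  · obtain ⟨m, -, h1, h2, h3, -⟩ :=
      fin_goal (half_case u (card_pos.1 (by omega)) hpos hall hsum hu hineq) hn
    refine ⟨by rw [h1, pow_add]; omega, Or.inr ?_⟩
    rw [h1, show m + 2 - 1 = m + 1 from rfl, pow_succ', ← h3]
  simp only [not_forall, not_lt] at hall
  obtain ⟨p, hp, hq⟩ := hall
  have hc : (P.erase p).card + 1 = P.card := card_erase_add_one hp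
  have hs : p + ∑ x ∈ P.erase p, x = ∑ x ∈ P, x := add_sum_erase P (fun x => x) hp
  have lt : ∀ x ∈ P.erase p, x < q - p := fun x hx => by
    have h1 : x + ∑ z ∈ (P.erase p).erase x, z = ∑ z ∈ P.erase p, z :=
      add_sum_erase _ (fun x => x) hx
    have h2 := card_erase_add_one hx
    obtain ⟨z, hz⟩ : ((P.erase p).erase x).Nonempty := card_pos.1 (by omega)
    have h3 := single_le_sum (f := fun x : ℕ => x) (fun _ _ => Nat.zero_le _) hz
    have h4 := hpos z (mem_of_mem_erase (mem_of_mem_erase hz))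
    omega
  obtain ⟨x0, hx0⟩ : (P.erase p).Nonempty := card_pos.1 (by omega)
  have h0 := lt x0 hx0
  have h0' := hpos x0 (mem_of_mem_erase hx0)
  have hq0 : 0 < q := by omega
  have hne : 2 * p ≠ q := fun c => by
    have := (Nat.coprime_of_mul_modEq_one _ (hu p hp)).eq_one_of_dvd ⟨2, by omega⟩
    omega
  have nm : q - p ∉ P.erase p := fun c => lt_irrefl _ (lt _ c)
  have ne : ∀ x ∈ P.erase p, x ≠ q - p := fun x hx => (lt x hx).ne
  have r := Nat.mod_lt (u p) hq0
  have pm1 : finPM q (q - p : ℕ) p := Or.inr (by rw [Nat.cast_sub (by omega)]; simp)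
  have pm2 : (q : ℤ) ∣ (q - u p % q : ℕ) + (u p : ℤ) := by
    have h2 : (u p : ℤ) = q * (u p / q : ℕ) + (u p % q : ℕ) := by
      exact_mod_cast (Nat.div_add_mod (u p) q).symm
    rw [Nat.cast_sub r.le]
    exact ⟨(u p / q : ℕ) + 1, by linarith⟩
  have G : Goal q (insert (q - p) (P.erase p)) := by
    refine half_case (fun x => if x = q - p then q - u p % q else u x) (insert_nonempty _ _)
      (fun x hx => ?_) (fun x hx => ?_) (by rw [sum_insert nm]; omega) (fun x hx => ?_)
      fun y hy => ?_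
    · rcases mem_insert.1 hx with rfl | hx
      · omega
      · exact hpos x (mem_of_mem_erase hx)
    · rcases mem_insert.1 hx with rfl | hx
      · omega
      · have := lt x hx
        omega
    · rcases mem_insert.1 hx with rfl | hx
      · rw [if_pos rfl]
        refine Nat.ModEq.trans (Nat.modEq_iff_dvd.2 ?_) (hu p hp)
        have := dvd_sub ((dvd_refl (q : ℤ)).mul_right (u p)) (pm2.mul_left (q - p : ℕ))
        rw [Nat.cast_mul, Nat.cast_mul]
        rwa [show (q : ℤ) * u p - (q - p : ℕ) * ((q - u p % q : ℕ) + (u p : ℤ)) =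
          p * u p - (q - p : ℕ) * (q - u p % q : ℕ) by rw [Nat.cast_sub (by omega : p ≤ q)]; ring]
          at this
      · rw [if_neg (ne x hx)]
        exact hu x (mem_of_mem_erase hx)
    · obtain ⟨z, hz, pm⟩ : ∃ z ∈ P, finPM q y z := by
        rcases mem_insert.1 hy with rfl | hy
        · exact ⟨p, hp, pm1⟩
        · exact ⟨y, mem_of_mem_erase hy, finPM_refl _⟩
      refine (hineq z hz).trans_eq ?_
      rw [sum_insert nm, ← add_sum_erase _ _ hp, if_pos rfl, fin_abs' hq0 pm (Or.inr pm2)]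
      refine congrArg _ (sum_congr rfl fun x hx => ?_)
      rw [if_neg (ne x hx), fin_abs' hq0 pm (finPM_refl _)]
  have hc' : (insert (q - p) (P.erase p)).card = P.card := by rw [card_insert_of_notMem nm, hc]
  obtain ⟨m, -, h1, h2, h3, h4⟩ := fin_goal G (by omega)
  have e : q - p = 2 * 2 ^ m - 1 := by
    by_contra c
    have a1 := h4 _ ((mem_insert.1 (h3 ▸ mem_insert_self _ _)).resolve_left c)
    have a2 := lt _ ((mem_insert.1 (h3 ▸ mem_insert_self _ _ :
      2 * 2 ^ m - 1 ∈ insert (q - p) (P.erase p))).resolve_left (Ne.symm c))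
    omega
  have e2 : P.erase p = (range (m + 1)).image fun i => 2 ^ i := by
    rw [← erase_insert nm, h3, e, erase_insert fun c => lt_irrefl _ (h4 _ c)]
  have hcard : P.card = m + 2 := by omega
  refine ⟨by rw [hcard, pow_add]; omega, Or.inl ?_⟩
  rw [hcard, range_add_one, image_insert, ← e2, show 2 ^ (m + 1) = p by rw [pow_succ]; omega,
    insert_erase hp]

end Pool.Agent.H63Fr
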