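import Pool.Agent.H63Fr.Budget

namespace Pool.Agent.H63Fr

open Finset

variable {q : ℕ} {P : Finset ℕ} {s : ℕ → ℕ → ℕ}

theorem harm_le {z : ℕ} (hz : 36 ≤ z) :
    ∑ i ∈ Icc 1 (z + 1), (1 : ℝ) / i ≤ 321 / 100 + (z : ℝ) / 36 := by
  induction z, hz using Nat.le_induction with
  | base => norm_num [show Icc 1 37 = (range 37).image (· + 1) from by decide, sum_range_succ]
  | succ z hz ih =>
    rw [sum_Icc_succ_top (by omega)]
    have h1 : (36 : ℝ) ≤ z := by exact_mod_cast hz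
    have h2 : (1 : ℝ) / (z + 1 + 1 : ℕ) ≤ 1 / 36 :=
      one_div_le_one_div_of_le (by norm_num) (by push_cast; linarith)
    push_cast at h2 ⊢
    linarith

theorem card_le (h : Sys q P s) : P.card ≤ 2 * Nat.sqrt q := by
  have h1 : (P.filter (· ≤ Nat.sqrt q)).card ≤ Nat.sqrt q :=
    (card_le_card fun p hp => mem_Icc.2 ⟨h.pos p (mem_filter.1 hp).1, (mem_filter.1 hp).2⟩).trans_eq
      (by simp)
  have h2 : (P.filter (¬ · ≤ Nat.sqrt q)).card * (Nat.sqrt q + 1) ≤ q :=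
    (card_nsmul_le_sum _ (fun p => p) _ fun p hp => not_le.1 (mem_filter.1 hp).2).trans
      ((sum_le_sum_of_subset (filter_subset _ _)).trans h.sum_le)
  have h3 := Nat.lt_of_mul_lt_mul_right (h2.trans_lt (Nat.lt_succ_sqrt q))
  have h4 := card_filter_add_card_filter_not (s := P) (· ≤ Nat.sqrt q)
  omega

theorem large_z (hq : 1296 ≤ q) : 36 ≤ Nat.sqrt q := Nat.le_sqrt.2 hq

theorem large_inv (h : Sys q P s) (hq : 1296 ≤ q) :
    ∑ p ∈ P.erase 1, (1 : ℝ) / p ≤ 321 / 100 + (Nat.sqrt q : ℝ) / 36 := by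
  have h0 := harm_le (large_z hq)
  have h1 : ∑ p ∈ (P.erase 1).filter (· ≤ Nat.sqrt q), (1 : ℝ) / p ≤
      ∑ p ∈ (Icc 1 (Nat.sqrt q + 1)).erase 1, (1 : ℝ) / p :=
    sum_le_sum_of_subset_of_nonneg (fun p hp => by
      have := h.pos p (mem_erase.1 (mem_filter.1 hp).1).2
      have := (mem_filter.1 hp).2
      exact mem_erase.2 ⟨(mem_erase.1 (mem_filter.1 hp).1).1, mem_Icc.2 (by omega)⟩)
      fun _ _ _ => by positivity
  have h2 := add_sum_erase (Icc 1 (Nat.sqrt q + 1)) (fun p : ℕ => (1 : ℝ) / p)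
    (a := 1) (mem_Icc.2 (by omega))
  have h3 : ∑ p ∈ (P.erase 1).filter (¬ · ≤ Nat.sqrt q), (1 : ℝ) / p ≤
      ∑ p ∈ P, (p : ℝ) / ((Nat.sqrt q : ℝ) + 1) ^ 2 := by
    refine (sum_le_sum fun p hp => ?_).trans (sum_le_sum_of_subset_of_nonneg
      ((filter_subset _ _).trans (erase_subset _ _)) fun _ _ _ => by positivity)
    have e : (Nat.sqrt q : ℝ) + 1 ≤ p := by exact_mod_cast not_le.1 (mem_filter.1 hp).2
    have e0 : (0 : ℝ) < (Nat.sqrt q : ℝ) + 1 := by positivity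
    rw [div_le_div_iff₀ (by linarith) (by positivity)]
    nlinarith
  have h4 : ∑ p ∈ P, (p : ℝ) / ((Nat.sqrt q : ℝ) + 1) ^ 2 ≤ 1 := by
    rw [← sum_div, div_le_one (by positivity), ← Nat.cast_sum]
    exact_mod_cast h.sum_le.trans (Nat.lt_succ_sqrt' q).le
  rw [← sum_filter_add_sum_filter_not _ (· ≤ Nat.sqrt q)]
  simp only [Nat.cast_one, div_one] at h2
  linarith

theorem large_four (h : Sys q P s) (h1 : 1 ∈ P) {p : ℕ} (hp : p ∈ P) (hb : Bad q p) :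
    (4 : ℝ) ≤ p ∧ 17 / 80 * (p : ℝ) ≤ (p : ℝ) / 2 - 23 / 5 / p := by
  have h4 : (4 : ℝ) ≤ p := by
    exact_mod_cast (ell_b h hp h1 (mt Nat.dvd_one.1 hb.1) hb.2.1 hb.2.2).1
  have : 23 / 5 / (p : ℝ) ≤ 23 / 80 * p := by
    rw [div_le_iff₀ (by linarith)]
    nlinarith
  exact ⟨h4, by linarith⟩

theorem large_key (h : Sys q P s) (hq : 1296 ≤ q) (h1 : 1 ∈ P) :
    ((q : ℝ) - ∑ p ∈ P, (p : ℝ)) + ∑ p ∈ P.filter (Bad q), ((p : ℝ) / 2 - 23 / 5 / p) ≤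
      23 / 10 * (321 / 100 + (Nat.sqrt q : ℝ) / 36) := by
  have h2 := budget h h1
  have h3 := large_inv h hq
  have h4 : P.filter (Bad q) = (P.erase 1).filter (Bad q) := by
    ext p
    simp only [mem_filter, mem_erase]
    exact ⟨fun a => ⟨⟨a.2.1, a.1⟩, a.2⟩, fun a => ⟨a.1.2, a.2⟩⟩
  have h5 : ∑ p ∈ P.erase 1, ((if Bad q p then (p : ℝ) / 2 - 23 / 5 / p else 0) -
      23 / 10 * (1 / (p : ℝ))) ≤ ∑ p ∈ P.erase 1, ell q p 1 (s p 1) := by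
    refine sum_le_sum fun p hp => ?_
    obtain ⟨p1, p2⟩ := mem_erase.1 hp
    have e0 : 0 ≤ 23 / 10 * (1 / (p : ℝ)) := by positivity
    split_ifs with hb
    · linarith [(ell_b h p2 h1 (mt Nat.dvd_one.1 p1) hb.2.1 hb.2.2).2]
    · have := ell_a h p2 h1 (mt Nat.dvd_one.1 p1)
      rw [mul_one_div]
      linarith
  rw [sum_sub_distrib, ← mul_sum, ← sum_filter, ← h4] at h5
  linarith

theorem large_d (h : Sys q P s) : 0 ≤ (q : ℝ) - ∑ p ∈ P, (p : ℝ) :=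
  sub_nonneg.2 ((Nat.cast_sum P fun p => p).symm.trans_le (Nat.cast_le.2 h.sum_le))

theorem mass_le (h : Sys q P s) (hq : 1296 ≤ q) (h1 : 1 ∈ P) :
    ((q : ℝ) - ∑ p ∈ P, (p : ℝ)) + ∑ p ∈ P.filter (Bad q), (p : ℝ)
      ≤ 13 / 10 * (Nat.sqrt q : ℝ) := by
  have h2 := large_key h hq h1
  have h3 : ∑ p ∈ P.filter (Bad q), 17 / 80 * (p : ℝ) ≤ _ :=
    sum_le_sum fun p hp => (large_four h h1 (mem_filter.1 hp).1 (mem_filter.1 hp).2).2
  have h4 : (36 : ℝ) ≤ Nat.sqrt q := by exact_mod_cast large_z hq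
  rw [← mul_sum] at h3
  linarith [large_d h]

theorem bad_lt (h : Sys q P s) (hq : 1296 ≤ q) (h1 : 1 ∈ P) {p : ℕ} (hp : p ∈ P)
    (hb : Bad q p) : p < Nat.sqrt q := by
  have h2 := large_key h hq h1
  have h3 := single_le_sum (f := fun p : ℕ => (p : ℝ) / 2 - 23 / 5 / p) (fun p hp => by
    have := large_four h h1 (mem_filter.1 hp).1 (mem_filter.1 hp).2
    linarith [this.1, this.2]) (mem_filter.2 ⟨hp, hb⟩)
  have h4 : (36 : ℝ) ≤ Nat.sqrt q := by exact_mod_cast large_z hq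
  have h5 := (large_four h h1 hp hb).1
  have h6 : 23 / 5 / (p : ℝ) ≤ 23 / 5 / 4 := div_le_div_of_nonneg_left (by norm_num) four_pos h5
  have h7 : (p : ℝ) < Nat.sqrt q := by linarith [large_d h]
  exact_mod_cast h7

theorem chain_struct (h : Sys q P s) (hq : 1296 ≤ q) (h1 : 1 ∈ P) :
    (∃ m, P = chain 1 m) ∨ ∃ m y, Big q P s m y := by
  classical
  let Q : ℕ → Prop := fun m => ∀ p, (p ∈ P ∧ p ≤ 2 ^ m) ↔ ∃ i, i ≤ m ∧ p = 2 ^ i
  have q0 : Q 0 := fun p => ⟨fun a => ⟨0, le_rfl, le_antisymm a.2 (h.pos p a.1)⟩, by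
    rintro ⟨i, hi, rfl⟩
    rw [Nat.le_zero.1 hi]
    exact ⟨h1, le_rfl⟩⟩
  have q1 : ∃ m, ¬ Q (m + 1) := ⟨q, fun a => by
    have h2 := h.half _ ((a _).2 ⟨q + 1, le_rfl, rfl⟩).1
    have h3 := Nat.lt_two_pow_self (n := q + 1)
    omega⟩
  obtain ⟨m, m1, m2⟩ : ∃ m, Q m ∧ ¬ Q (m + 1) := by
    refine ⟨Nat.find q1, ?_, Nat.find_spec q1⟩
    rcases Nat.eq_zero_or_pos (Nat.find q1) with e | e
    · rwa [e]
    · have := not_not.1 (Nat.find_min q1 (Nat.sub_lt e one_pos))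
      rwa [show Nat.find q1 - 1 + 1 = Nat.find q1 by omega] at this
  rcases (P.filter (2 ^ m < ·)).eq_empty_or_nonempty with e | e
  · refine Or.inl ⟨m, Finset.ext fun p => ?_⟩
    simp only [mem_chain, mul_one, ← m1 p]
    exact ⟨fun a => ⟨a, not_lt.1 (filter_eq_empty_iff.1 e a)⟩, fun a => a.1⟩
  obtain ⟨y, hy, y1⟩ := exists_min_image _ id e
  obtain ⟨y2, y3⟩ := mem_filter.1 hy
  have y4 : ∀ p, (p ∈ P ∧ p < y) ↔ ∃ i, i ≤ m ∧ p = 2 ^ i := fun p => by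
    rw [← m1 p]
    exact ⟨fun a => ⟨a.1, not_lt.1 fun b => (y1 p (mem_filter.2 ⟨a.1, b⟩)).not_gt a.2⟩,
      fun a => ⟨a.1, a.2.trans_lt y3⟩⟩
  refine Or.inr ⟨m, y, h, hq, y2, y3, fun e => m2 fun p => ⟨fun a => ?_, ?_⟩, y4⟩
  · rcases a.2.eq_or_lt with b | b
    · exact ⟨m + 1, le_rfl, b⟩
    · obtain ⟨i, hi, b⟩ := (y4 p).1 ⟨a.1, e ▸ b⟩
      exact ⟨i, hi.trans (Nat.le_succ m), b⟩
  · rintro ⟨i, hi, rfl⟩
    refine ⟨?_, Nat.pow_le_pow_right two_pos hi⟩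
    rcases hi.eq_or_lt with b | b
    · rw [b, ← e]
      exact y2
    · exact ((y4 _).2 ⟨i, Nat.lt_succ_iff.1 b, rfl⟩).1

end Pool.Agent.H63Fr
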