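import Pool.Agent.H63Fr.Defs

namespace Pool.Agent.H63Fr

open Finset

variable {q : ℕ} {P : Finset ℕ} {s : ℕ → ℕ → ℕ}

theorem trig_step {f g : ℝ → ℝ} (hd : ∀ x, HasDerivAt f (g x) x) (hg : ∀ x, 0 ≤ x → 0 ≤ g x)
    (h0 : f 0 = 0) {x : ℝ} (hx : 0 ≤ x) : 0 ≤ f x := by
  have hm : MonotoneOn f (Set.Ici 0) := by
    refine monotoneOn_of_deriv_nonneg (convex_Ici 0)
      (fun y _ => (hd y).continuousAt.continuousWithinAt)
      (fun y _ => (hd y).differentiableAt.differentiableWithinAt) fun y hy => ?_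
    rw [(hd y).deriv]
    exact hg y (interior_subset hy)
  have := hm (Set.mem_Ici.2 le_rfl) hx hx
  rwa [h0] at this

theorem trig_pow (n : ℕ) (c x : ℝ) :
    HasDerivAt (fun y : ℝ => y ^ (n + 1) / c) (((n : ℝ) + 1) * x ^ n / c) x := by
  have := (hasDerivAt_pow (n + 1) x).div_const c
  simpa using this

theorem trig_cos4 {x : ℝ} (hx : 0 ≤ x) : 0 ≤ 1 - x ^ 2 / 2 + x ^ 4 / 24 - Real.cos x := by
  refine trig_step (f := fun x => 1 - x ^ 2 / 2 + x ^ 4 / 24 - Real.cos x)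
    (g := fun x => Real.sin x - (x - x ^ 3 / 6)) (fun y => ?_)
    (fun y hy => sub_nonneg.2 (Real.sin_ge_sub_cube hy)) (by simp) hx
  refine ((((trig_pow 1 2 y).const_sub 1).add (trig_pow 3 24 y)).sub
    (Real.hasDerivAt_cos y)).congr_deriv ?_
  push_cast
  ring

theorem trig_sin5 {x : ℝ} (hx : 0 ≤ x) : 0 ≤ x - x ^ 3 / 6 + x ^ 5 / 120 - Real.sin x := by
  refine trig_step (f := fun x => x - x ^ 3 / 6 + x ^ 5 / 120 - Real.sin x)
    (g := fun x => 1 - x ^ 2 / 2 + x ^ 4 / 24 - Real.cos x) (fun y => ?_)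
    (fun y hy => trig_cos4 hy) (by simp) hx
  refine ((((hasDerivAt_id' y).sub (trig_pow 2 6 y)).add (trig_pow 4 120 y)).sub
    (Real.hasDerivAt_sin y)).congr_deriv ?_
  push_cast
  ring

theorem trig_cos6 {x : ℝ} (hx : 0 ≤ x) :
    0 ≤ Real.cos x - (1 - x ^ 2 / 2 + x ^ 4 / 24 - x ^ 6 / 720) := by
  refine trig_step (f := fun x => Real.cos x - (1 - x ^ 2 / 2 + x ^ 4 / 24 - x ^ 6 / 720))
    (g := fun x => x - x ^ 3 / 6 + x ^ 5 / 120 - Real.sin x) (fun y => ?_)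
    (fun y hy => trig_sin5 hy) (by simp) hx
  refine ((Real.hasDerivAt_cos y).sub ((((trig_pow 1 2 y).const_sub 1).add
    (trig_pow 3 24 y)).sub (trig_pow 5 720 y))).congr_deriv ?_
  push_cast
  ring

theorem trig_sin7 {x : ℝ} (hx : 0 ≤ x) :
    0 ≤ Real.sin x - (x - x ^ 3 / 6 + x ^ 5 / 120 - x ^ 7 / 5040) := by
  refine trig_step (f := fun x => Real.sin x - (x - x ^ 3 / 6 + x ^ 5 / 120 - x ^ 7 / 5040))
    (g := fun x => Real.cos x - (1 - x ^ 2 / 2 + x ^ 4 / 24 - x ^ 6 / 720)) (fun y => ?_)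
    (fun y hy => trig_cos6 hy) (by simp) hx
  refine ((Real.hasDerivAt_sin y).sub ((((hasDerivAt_id' y).sub (trig_pow 2 6 y)).add
    (trig_pow 4 120 y)).sub (trig_pow 6 5040 y))).congr_deriv ?_
  push_cast
  ring

theorem trig_up {z : ℝ} (h0 : 0 < z) (h1 : z ≤ Real.pi / 2) :
    1 / Real.sin z ≤ 1 / z + 233 / 1000 * z := by
  have hp := Real.pi_lt_d4
  have hs : 0 < Real.sin z := Real.sin_pos_of_pos_of_lt_pi h0 (by linarith)
  obtain ⟨w, hw⟩ : ∃ w, w = z ^ 2 := ⟨_, rfl⟩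
  have w0 : 0 ≤ w := by rw [hw]; positivity
  have w1 : w ≤ 24675 / 10000 := by rw [hw]; nlinarith
  have h2 : 0 ≤ (233 / 1000 - 1 / 6) + w * (1 / 120 - 233 / 6000) +
      w ^ 2 * (233 / 120000 - 1 / 5040) - w ^ 3 * (233 / 5040000) := by
    nlinarith [sq_nonneg (w - 24675 / 10000), mul_nonneg (sub_nonneg.2 w1) (sq_nonneg w)]
  have h3 : z * (1 - w / 6 + w ^ 2 / 120 - w ^ 3 / 5040) ≤ Real.sin z := by
    have := trig_sin7 h0.le
    rw [hw]
    linarith
  have h4 : 1 ≤ (1 - w / 6 + w ^ 2 / 120 - w ^ 3 / 5040) * (1 + 233 / 1000 * w) := by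
    have := mul_nonneg w0 h2
    linarith
  have h5 : z ≤ Real.sin z * (1 + 233 / 1000 * w) := by
    have a := mul_le_mul_of_nonneg_right h3 (show 0 ≤ 1 + 233 / 1000 * w by positivity)
    have b := mul_le_mul_of_nonneg_left h4 h0.le
    linarith
  have e : 1 / z + 233 / 1000 * z = (1 + 233 / 1000 * w) / z := by
    rw [hw]
    field_simp
  rw [e, div_le_div_iff₀ hs h0]
  linarith

theorem trig_low {z : ℝ} (h0 : 0 < z) (h1 : z ≤ Real.pi / 2) :
    1 / z + z / 6 ≤ 1 / Real.sin z := by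
  have hp := Real.pi_lt_d4
  have hs : 0 < Real.sin z := Real.sin_pos_of_pos_of_lt_pi h0 (by linarith)
  obtain ⟨w, hw⟩ : ∃ w, w = z ^ 2 := ⟨_, rfl⟩
  have w0 : 0 ≤ w := by rw [hw]; positivity
  have w1 : w ≤ 14 := by rw [hw]; nlinarith
  have h3 : Real.sin z ≤ z * (1 - w / 6 + w ^ 2 / 120) := by
    have := trig_sin5 h0.le
    rw [hw]
    linarith
  have h4 : (1 - w / 6 + w ^ 2 / 120) * (1 + w / 6) ≤ 1 := by
    have := mul_nonneg (sub_nonneg.2 w1) (sq_nonneg w)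
    linarith
  have h5 : Real.sin z * (1 + w / 6) ≤ z := by
    have a := mul_le_mul_of_nonneg_right h3 (show 0 ≤ 1 + w / 6 by positivity)
    have b := mul_le_mul_of_nonneg_left h4 h0.le
    linarith
  have e : 1 / z + z / 6 = (1 + w / 6) / z := by
    rw [hw]
    field_simp
  rw [e, div_le_div_iff₀ h0 hs]
  linarith

theorem pi_div_sin_le {t : ℕ} (ht0 : 0 < t) (ht : 2 * t ≤ q) :
    Real.pi / Real.sin (Real.pi * t / q) ≤ F q t := by
  have ht' : (2 : ℝ) * t ≤ q := by exact_mod_cast ht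
  have ht1 : (0 : ℝ) < t := by exact_mod_cast ht0
  have hq : (0 : ℝ) < q := by linarith
  have hp := Real.pi_pos
  have hp' := Real.pi_lt_d4
  have h := trig_up (z := Real.pi * t / q) (by positivity) (by
    rw [div_le_div_iff₀ hq two_pos]
    nlinarith)
  have h2 := mul_le_mul_of_nonneg_left h hp.le
  have e : Real.pi * (1 / (Real.pi * t / q) + 233 / 1000 * (Real.pi * t / q)) =
      (q : ℝ) / t + 233 / 1000 * Real.pi ^ 2 * (t / q) := by
    field_simp
  have h3 : 233 / 1000 * Real.pi ^ 2 * ((t : ℝ) / q) ≤ 23 / 10 * (t / q) :=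
    mul_le_mul_of_nonneg_right (by nlinarith) (by positivity)
  rw [e, mul_one_div] at h2
  unfold F
  rw [mul_div_assoc (23 / 10 : ℝ)]
  linarith

theorem le_pi_div_sin (hq : 2 ≤ q) :
    (q : ℝ) + 8 / (5 * q) ≤ Real.pi / Real.sin (Real.pi / q) := by
  have hq' : (2 : ℝ) ≤ q := by exact_mod_cast hq
  have hq0 : (0 : ℝ) < q := by linarith
  have hp := Real.pi_pos
  have hp' := Real.pi_gt_d4
  have h := trig_low (z := Real.pi / q) (by positivity) (by gcongr)
  have h2 := mul_le_mul_of_nonneg_left h hp.le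
  have e : Real.pi * (1 / (Real.pi / q) + Real.pi / q / 6) =
      (q : ℝ) + Real.pi ^ 2 / 6 * (1 / q) := by
    field_simp
  have h3 : 8 / 5 * (1 / (q : ℝ)) ≤ Real.pi ^ 2 / 6 * (1 / q) :=
    mul_le_mul_of_nonneg_right (by nlinarith) (by positivity)
  have e2 : 8 / (5 * (q : ℝ)) = 8 / 5 * (1 / q) := by field_simp
  rw [e, mul_one_div Real.pi] at h2
  linarith

theorem trig_cot {x : ℝ} (h1 : Real.sin x ≠ 0) (h2 : Real.sin (2 * x) ≠ 0) :
    1 / Real.sin (2 * x) = Real.cos x / Real.sin x - Real.cos (2 * x) / Real.sin (2 * x) := by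
  have h3 : Real.cos x ≠ 0 := by
    intro h
    rw [Real.sin_two_mul, h, mul_zero] at h2
    exact h2 rfl
  rw [Real.sin_two_mul, Real.cos_two_mul]
  field_simp
  ring

theorem trig_chain {t : ℝ} (h0 : 0 < t) (m : ℕ) (h1 : 2 ^ m * t ≤ Real.pi / 2) :
    ∑ j ∈ range m, 1 / Real.sin (2 ^ (j + 1) * t) =
      Real.cos t / Real.sin t - Real.cos (2 ^ m * t) / Real.sin (2 ^ m * t) := by
  induction m with
  | zero => simp
  | succ m ih =>
    have hp := Real.pi_pos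
    have e : (2 : ℝ) ^ (m + 1) * t = 2 * (2 ^ m * t) := by ring
    have h2 : (0 : ℝ) < 2 ^ m * t := by positivity
    rw [e] at h1
    rw [sum_range_succ, ih (by linarith), e, trig_cot
      (Real.sin_pos_of_pos_of_lt_pi h2 (by linarith)).ne'
      (Real.sin_pos_of_pos_of_lt_pi (by linarith) (by linarith)).ne']
    ring

theorem chain_sum_lt {m : ℕ} (hm : 2 * 2 ^ m ≤ q) :
    ∑ j ∈ range m, 1 / Real.sin (Real.pi * (2 ^ (j + 1) : ℕ) / q) < 1 / Real.sin (Real.pi / q) := by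
  have hm' : (2 : ℝ) * 2 ^ m ≤ q := by exact_mod_cast hm
  have h1 : (1 : ℝ) ≤ 2 ^ m := one_le_pow₀ one_le_two
  have hq : (0 : ℝ) < q := by linarith
  have hp := Real.pi_pos
  have h0 : 0 < Real.pi / q := by positivity
  have h2 : 2 ^ m * (Real.pi / q) ≤ Real.pi / 2 := by
    rw [← mul_div_assoc, div_le_div_iff₀ hq two_pos]
    nlinarith
  have h3 : Real.pi / q ≤ Real.pi / 2 := le_trans (le_mul_of_one_le_left h0.le h1) h2
  have h4 : (0 : ℝ) < 2 ^ m * (Real.pi / q) := by positivity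
  have e : ∀ j : ℕ, Real.pi * (2 ^ (j + 1) : ℕ) / q = 2 ^ (j + 1) * (Real.pi / q) := by
    intro j
    push_cast
    ring
  simp only [e]
  rw [trig_chain h0 m h2]
  have h5 : 0 ≤ Real.cos (2 ^ m * (Real.pi / q)) / Real.sin (2 ^ m * (Real.pi / q)) :=
    div_nonneg (Real.cos_nonneg_of_neg_pi_div_two_le_of_le (by linarith) h2)
      (Real.sin_pos_of_pos_of_lt_pi h4 (by linarith)).le
  have h6 : Real.cos (Real.pi / q) < 1 := by
    have := Real.cos_lt_cos_of_nonneg_of_le_pi le_rfl (by linarith : Real.pi / q ≤ Real.pi) h0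
    rwa [Real.cos_zero] at this
  have h7 := div_lt_div_of_pos_right h6 (Real.sin_pos_of_pos_of_lt_pi h0 (by linarith))
  linarith

end Pool.Agent.H63Fr
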